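import Pool.Agent.Lib.MP_4b3eba_co.Seg

/-! The final contradiction for the four directions `0, 45, 90, 135` degrees. -/

namespace Pool.Agent.Bend

/-- first coordinates of the eight signed directions -/
def ex (c : Fin 8) : ℤ := ![1, 1, 0, -1, -1, -1, 0, 1] c
/-- second coordinates of the eight signed directions -/
def ey (c : Fin 8) : ℤ := ![0, 1, 1, 1, 0, -1, -1, -1] c

def kk (c d : Fin 8) : ℤ := ex c * ey d - ey c * ex d

/-- a nonzero vector in one of the four directions -/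
def IsDir (v : Pt) : Prop := v ≠ 0 ∧ (v.2 = 0 ∨ v.1 = 0 ∨ v.1 = v.2 ∨ v.1 = - v.2)

theorem code_exists {v : Pt} (h : IsDir v) :
    ∃ (c : Fin 8) (s : ℝ), 0 < s ∧ v.1 = s * (ex c : ℝ) ∧ v.2 = s * (ey c : ℝ) := by
  obtain ⟨h0, h1⟩ := h
  rcases h1 with h1 | h1 | h1 | h1
  · have h2 : v.1 ≠ 0 := fun h2 => h0 (Prod.ext h2 h1)
    rcases lt_or_gt_of_ne h2 with h3 | h3
    · exact ⟨4, - v.1, by linarith, by simp [ex], by simp [ey, h1]⟩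
    · exact ⟨0, v.1, h3, by simp [ex], by simp [ey, h1]⟩
  · have h2 : v.2 ≠ 0 := fun h2 => h0 (Prod.ext h1 h2)
    rcases lt_or_gt_of_ne h2 with h3 | h3
    · exact ⟨6, - v.2, by linarith, by simp [ex, h1], by simp [ey]⟩
    · exact ⟨2, v.2, h3, by simp [ex, h1], by simp [ey]⟩
  · have h2 : v.1 ≠ 0 := fun h2 => h0 (Prod.ext h2 (by rw [← h1, h2]; rfl))
    rcases lt_or_gt_of_ne h2 with h3 | h3
    · exact ⟨5, - v.1, by linarith, by simp [ex], by simp [ey, h1]⟩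
    · exact ⟨1, v.1, h3, by simp [ex], by simp [ey, h1]⟩
  · have h2 : v.2 ≠ 0 := fun h2 => h0 (Prod.ext (by rw [h1, h2]; simp) h2)
    rcases lt_or_gt_of_ne h2 with h3 | h3
    · exact ⟨7, - v.2, by linarith, by simp [ex, h1], by simp [ey]⟩
    · exact ⟨3, v.2, h3, by simp [ex, h1], by simp [ey]⟩

theorem cr_code {v w : Pt} {c d : Fin 8} {s t : ℝ} (h1 : v.1 = s * (ex c : ℝ))
    (h2 : v.2 = s * (ey c : ℝ)) (h3 : w.1 = t * (ex d : ℝ)) (h4 : w.2 = t * (ey d : ℝ)) :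
    cr v w = s * t * (kk c d : ℝ) := by
  unfold cr kk
  rw [h1, h2, h3, h4]
  push_cast
  ring

theorem codes_decide : ∀ a0 a1 b0 b1 : Fin 8, 0 < kk a0 b0 * kk a0 a1 → 0 < kk a1 b0 * kk a0 a1 →
    0 < kk a0 b1 * kk a0 a1 → 0 < kk a1 b1 * kk a0 a1 → 0 < kk b1 b0 * kk a0 b0 →
    (a1 = a0 + 1 ∧ b1 = a0 + 2 ∧ b0 = a0 + 3) ∨ (a1 = a0 - 1 ∧ b1 = a0 - 2 ∧ b0 = a0 - 3) := by
  decide +kernel

/-- sign transfer -/
theorem sign_transfer {p r s t s' t' : ℝ} {k k' : ℤ} (hp : 0 < p) (hr : 0 < r) (hs : 0 < s)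
    (ht : 0 < t) (hs' : 0 < s') (ht' : 0 < t') (hk : (k : ℝ) ≠ 0)
    (h : p * (s * t * (k : ℝ)) = r * (s' * t' * (k' : ℝ))) : 0 < k * k' := by
  have h1 : (k : ℝ) = (r * s' * t' / (p * s * t)) * (k' : ℝ) := by
    field_simp
    linarith
  have hc : 0 < r * s' * t' / (p * s * t) := by positivity
  have hk' : (k' : ℝ) ≠ 0 := by
    intro h0
    apply hk
    rw [h1, h0, mul_zero]
  have h2 : (0 : ℝ) < (k : ℝ) * (k' : ℝ) := by
    rw [h1]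
    have : 0 < (k' : ℝ) * (k' : ℝ) := mul_self_pos.mpr hk'
    nlinarith
  exact_mod_cast h2

/-- the codes of two hubs crossing four times -/
theorem pair_codes {A B : Pt} {α β : Fin 2 → Pt} {x y : Fin 2 → Fin 2 → ℝ}
    (hpos : ∀ s t, 0 < x s t ∧ 0 < y s t)
    (heq : ∀ s t, A + x s t • α s = B + y s t • β t)
    (hcr : ∀ s t, cr (α s) (β t) ≠ 0) (hx : ∀ s, x s 0 < x s 1) (hy : ∀ t, y 0 t < y 1 t)
    {a0 a1 b0 b1 : Fin 8} {p0 p1 r0 r1 : ℝ} (hp0 : 0 < p0) (hp1 : 0 < p1) (hr0 : 0 < r0)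
    (hr1 : 0 < r1) (e01 : (α 0).1 = p0 * (ex a0 : ℝ)) (e02 : (α 0).2 = p0 * (ey a0 : ℝ))
    (e11 : (α 1).1 = p1 * (ex a1 : ℝ)) (e12 : (α 1).2 = p1 * (ey a1 : ℝ))
    (f01 : (β 0).1 = r0 * (ex b0 : ℝ)) (f02 : (β 0).2 = r0 * (ey b0 : ℝ))
    (f11 : (β 1).1 = r1 * (ex b1 : ℝ)) (f12 : (β 1).2 = r1 * (ey b1 : ℝ)) :
    (a1 = a0 + 1 ∧ b1 = a0 + 2 ∧ b0 = a0 + 3) ∨ (a1 = a0 - 1 ∧ b1 = a0 - 2 ∧ b0 = a0 - 3) := by
  have c1 : ∀ s t, A.1 + x s t * (α s).1 = B.1 + y s t * (β t).1 := fun s t => by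
    have := congrArg Prod.fst (heq s t)
    simpa using this
  have c2 : ∀ s t, A.2 + x s t * (α s).2 = B.2 + y s t * (β t).2 := fun s t => by
    have := congrArg Prod.snd (heq s t)
    simpa using this
  -- the five sign relations
  have S1 : (y 1 0 - y 0 0) * cr (α 0) (β 0) = x 1 0 * cr (α 0) (α 1) := by
    unfold cr
    linear_combination (α 0).1 * (c2 0 0 - c2 1 0) - (α 0).2 * (c1 0 0 - c1 1 0)
  have S2 : (y 1 0 - y 0 0) * cr (α 1) (β 0) = x 0 0 * cr (α 0) (α 1) := by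
    unfold cr
    linear_combination (α 1).1 * (c2 0 0 - c2 1 0) - (α 1).2 * (c1 0 0 - c1 1 0)
  have S3 : (y 1 1 - y 0 1) * cr (α 0) (β 1) = x 1 1 * cr (α 0) (α 1) := by
    unfold cr
    linear_combination (α 0).1 * (c2 0 1 - c2 1 1) - (α 0).2 * (c1 0 1 - c1 1 1)
  have S4 : (y 1 1 - y 0 1) * cr (α 1) (β 1) = x 0 1 * cr (α 0) (α 1) := by
    unfold cr
    linear_combination (α 1).1 * (c2 0 1 - c2 1 1) - (α 1).2 * (c1 0 1 - c1 1 1)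
  have S5 : y 0 1 * cr (β 1) (β 0) = (x 0 1 - x 0 0) * cr (α 0) (β 0) := by
    unfold cr
    linear_combination (β 0).1 * (c2 0 1 - c2 0 0) - (β 0).2 * (c1 0 1 - c1 0 0)
  have k00 := cr_code e01 e02 f01 f02
  have k01 := cr_code e01 e02 f11 f12
  have k10 := cr_code e11 e12 f01 f02
  have k11 := cr_code e11 e12 f11 f12
  have kα := cr_code e01 e02 e11 e12
  have kβ := cr_code f11 f12 f01 f02
  have ne : ∀ {s t : Fin 2} {p r : ℝ} {c d : Fin 8}, cr (α s) (β t) = p * r * (kk c d : ℝ) →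
      (kk c d : ℝ) ≠ 0 := by
    intro s t p r c d h h0
    apply hcr s t
    rw [h, h0, mul_zero]
  rw [k00, kα] at S1
  rw [k10, kα] at S2
  rw [k01, kα] at S3
  rw [k11, kα] at S4
  rw [kβ, k00] at S5
  have y0 : 0 < y 1 0 - y 0 0 := by linarith [hy 0]
  have y1 : 0 < y 1 1 - y 0 1 := by linarith [hy 1]
  have x0 : 0 < x 0 1 - x 0 0 := by linarith [hx 0]
  apply codes_decide
  · exact sign_transfer y0 (hpos 1 0).1 hp0 hr0 hp0 hp1 (ne k00) S1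
  · exact sign_transfer y0 (hpos 0 0).1 hp1 hr0 hp0 hp1 (ne k10) S2
  · exact sign_transfer y1 (hpos 1 1).1 hp0 hr1 hp0 hp1 (ne k01) S3
  · exact sign_transfer y1 (hpos 0 1).1 hp1 hr1 hp0 hp1 (ne k11) S4
  · have := sign_transfer x0 (hpos 0 1).2 hp0 hr0 hr1 hr0 (ne k00) S5.symm
    rw [mul_comm]
    exact this

theorem core {A B : Fin 2 → Pt} {α β : Fin 2 → Fin 2 → Pt}
    {x y : Fin 2 → Fin 2 → Fin 2 → Fin 2 → ℝ}
    (hpos : ∀ i j s t, 0 < x i j s t ∧ 0 < y i j s t)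
    (heq : ∀ i j s t, A i + x i j s t • α i s = B j + y i j s t • β j t)
    (hcr : ∀ i j s t, cr (α i s) (β j t) ≠ 0) (hx : ∀ i j s, x i j s 0 < x i j s 1)
    (hy : ∀ i j t, y i j 0 t < y i j 1 t) (h3 : y 0 1 1 1 < y 1 1 0 1)
    (h4 : x 1 0 0 1 < x 1 1 0 0) (hα : ∀ i s, IsDir (α i s)) (hβ : ∀ j t, IsDir (β j t)) :
    False := by
  choose ca pa hpa ea1 ea2 using fun i s => code_exists (hα i s)
  choose cb pb hpb eb1 eb2 using fun j t => code_exists (hβ j t)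
  have P : ∀ i j, (ca i 1 = ca i 0 + 1 ∧ cb j 1 = ca i 0 + 2 ∧ cb j 0 = ca i 0 + 3) ∨
      (ca i 1 = ca i 0 - 1 ∧ cb j 1 = ca i 0 - 2 ∧ cb j 0 = ca i 0 - 3) := fun i j =>
    pair_codes (hpos i j) (heq i j) (hcr i j) (hx i j) (hy i j) (hpa i 0) (hpa i 1) (hpb j 0)
      (hpb j 1) (ea1 i 0) (ea2 i 0) (ea1 i 1) (ea2 i 1) (eb1 j 0) (eb2 j 0) (eb1 j 1) (eb2 j 1)
  have c1 : ∀ i j s t, (A i).1 + x i j s t * pa i s * (ex (ca i s) : ℝ) =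
      (B j).1 + y i j s t * pb j t * (ex (cb j t) : ℝ) := fun i j s t => by
    have := congrArg Prod.fst (heq i j s t)
    simp only [Prod.fst_add, Prod.smul_fst, smul_eq_mul, ea1, eb1] at this
    linarith
  have c2 : ∀ i j s t, (A i).2 + x i j s t * pa i s * (ey (ca i s) : ℝ) =
      (B j).2 + y i j s t * pb j t * (ey (cb j t) : ℝ) := fun i j s t => by
    have := congrArg Prod.snd (heq i j s t)
    simp only [Prod.snd_add, Prod.smul_snd, smul_eq_mul, ea2, eb2] at this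
    linarith
  have g1 : 0 < y 0 1 0 0 * pb 1 0 := mul_pos (hpos 0 1 0 0).2 (hpb 1 0)
  have g2 : 0 < x 0 0 0 1 * pa 0 0 := mul_pos (hpos 0 0 0 1).1 (hpa 0 0)
  have g3 : y 0 1 1 1 * pb 1 1 < y 1 1 0 1 * pb 1 1 := mul_lt_mul_of_pos_right h3 (hpb 1 1)
  have g4 : x 1 0 0 1 * pa 1 0 < x 1 1 0 0 * pa 1 0 := mul_lt_mul_of_pos_right h4 (hpa 1 0)
  -- the six crossings
  have a1 := c1 0 1 0 0
  have a2 := c2 0 1 0 0
  have b1 := c1 0 0 0 1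
  have b2 := c2 0 0 0 1
  have d1 := c1 0 1 1 1
  have d2 := c2 0 1 1 1
  have e1 := c1 1 1 0 1
  have e2 := c2 1 1 0 1
  have f1 := c1 1 0 0 1
  have f2 := c2 1 0 0 1
  have k1 := c1 1 1 0 0
  have k2 := c2 1 1 0 0
  have P00 := P 0 0
  have P01 := P 0 1
  have P10 := P 1 0
  -- all codes in terms of the first one
  have Q : ∀ a0 a1 b0 b1 a0' a1' b0' b1' : Fin 8,
      ((a1 = a0 + 1 ∧ b1 = a0 + 2 ∧ b0 = a0 + 3) ∨ (a1 = a0 - 1 ∧ b1 = a0 - 2 ∧ b0 = a0 - 3)) →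
      ((a1 = a0 + 1 ∧ b1' = a0 + 2 ∧ b0' = a0 + 3) ∨
        (a1 = a0 - 1 ∧ b1' = a0 - 2 ∧ b0' = a0 - 3)) →
      ((a1' = a0' + 1 ∧ b1 = a0' + 2 ∧ b0 = a0' + 3) ∨
        (a1' = a0' - 1 ∧ b1 = a0' - 2 ∧ b0 = a0' - 3)) → a0' = a0 ∧ a1' = a1 ∧ b0' = b0 ∧
        b1' = b1 := by
    intro a0 a1 b0 b1 a0' a1' b0' b1'
    omega
  obtain ⟨q1, q2, q3, q4⟩ := Q _ _ _ _ _ _ _ _ P00 P01 P10
  rw [q3] at a1 a2 k1 k2
  rw [q4] at d1 d2 e1 e2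
  rw [q1] at e1 e2 f1 f2 k1 k2
  generalize ca 0 0 = z at *
  generalize ca 0 1 = z1 at *
  generalize cb 0 0 = z2 at *
  generalize cb 0 1 = z3 at *
  rcases P00 with ⟨r1, r2, r3⟩ | ⟨r1, r2, r3⟩
  · subst r1 r2 r3
    clear P01 P10 P Q q1 q2 q3 q4 c1 c2 ea1 ea2 eb1 eb2
    fin_cases z <;> simp [ex, ey] at a1 a2 b1 b2 d1 d2 e1 e2 f1 f2 k1 k2 <;> linarith
  · subst r1 r2 r3
    clear P01 P10 P Q q1 q2 q3 q4 c1 c2 ea1 ea2 eb1 eb2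
    fin_cases z <;> simp [ex, ey] at a1 a2 b1 b2 d1 d2 e1 e2 f1 f2 k1 k2 <;> linarith

end Pool.Agent.Bend
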