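import Pool.Agent.Lib.MP_4b3eba_co.Seg

/-! Two hubs with eight common neighbours. -/

namespace Pool.Agent.Bend

variable {V : Type*} (q : V → Pt) (a : V → Fin 2 → Pt)

/-- the polyline of a vertex -/
def Pl (y : V) : Set Pt := ⋃ i : Fin 2, sg (q y) (a y i)

/-- overlapping polylines -/
def Adj (y z : V) : Prop := ∃ i j : Fin 2, Ov (q y) (a y i) (q z) (a z j)

theorem adj_iff (y z : V) : Adj q a y z ↔ (Pl q a y ∩ Pl q a z).Infinite := by
  constructor
  · rintro ⟨i, j, h⟩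
    refine h.infinite.mono ?_
    exact Set.inter_subset_inter (Set.subset_iUnion (fun i => sg (q y) (a y i)) i)
      (Set.subset_iUnion (fun i => sg (q z) (a z i)) j)
  · intro h
    by_contra hcon
    apply h
    have : Pl q a y ∩ Pl q a z ⊆ ⋃ i : Fin 2, ⋃ j : Fin 2, sg (q y) (a y i) ∩ sg (q z) (a z j) := by
      rintro x ⟨hx, hx'⟩
      obtain ⟨i, hi⟩ := Set.mem_iUnion.mp hx
      obtain ⟨j, hj⟩ := Set.mem_iUnion.mp hx'
      exact Set.mem_iUnion.mpr ⟨i, Set.mem_iUnion.mpr ⟨j, hi, hj⟩⟩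
    refine Set.Finite.subset ?_ this
    apply Set.finite_iUnion
    intro i
    apply Set.finite_iUnion
    intro j
    by_contra hinf
    exact hcon ⟨i, j, ov_of_infinite hinf⟩

variable {q a}

theorem Adj.symm {y z : V} (h : Adj q a y z) : Adj q a z y := by
  obtain ⟨i, j, h⟩ := h
  exact ⟨j, i, h.symm⟩

theorem adj_of_line {y z : V} {B β : Pt} (hβ : β ≠ 0) {lo hi : ℝ} (hlt : lo < hi)
    (h1 : ∀ ξ, lo ≤ ξ → ξ ≤ hi → B + ξ • β ∈ Pl q a y)
    (h2 : ∀ ξ, lo ≤ ξ → ξ ≤ hi → B + ξ • β ∈ Pl q a z) : Adj q a y z := by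
  rw [adj_iff]
  have hsub : (fun ξ : ℝ => B + ξ • β) '' Set.Icc lo hi ⊆ Pl q a y ∩ Pl q a z := by
    rintro _ ⟨ξ, ⟨h3, h4⟩, rfl⟩
    exact ⟨h1 ξ h3 h4, h2 ξ h3 h4⟩
  refine Set.Infinite.mono hsub ?_
  refine Set.Infinite.image ?_ (Set.Icc_infinite hlt)
  intro s _ t _ hst
  exact line_inj hβ hst

theorem mem_Pl {y : V} (i : Fin 2) {x : Pt} (h : x ∈ sg (q y) (a y i)) : x ∈ Pl q a y :=
  Set.mem_iUnion.mpr ⟨i, h⟩

/-- two arms of the same polyline on one line -/
theorem hull_mem {w : V} {B β : Pt} {i i' : Fin 2} {m l l' : ℝ}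
    (h : Along B β (q w) (a w i) m l) (h' : Along B β (q w) (a w i') m l') {x y ξ : ℝ}
    (hx1 : min m (m + l) ≤ x) (hx2 : x ≤ max m (m + l))
    (hy1 : min m (m + l') ≤ y) (hy2 : y ≤ max m (m + l'))
    (hξ : (x ≤ ξ ∧ ξ ≤ y) ∨ (y ≤ ξ ∧ ξ ≤ x)) : B + ξ • β ∈ Pl q a w := by
  rcases hξ with ⟨h1, h2⟩ | ⟨h1, h2⟩
  · rcases le_total ξ m with h3 | h3
    · exact mem_Pl i (mem_sg_along h ξ (hx1.trans h1) (h3.trans (le_max_left _ _)))
    · exact mem_Pl i' (mem_sg_along h' ξ ((min_le_left _ _).trans h3) (h2.trans hy2))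
  · rcases le_total ξ m with h3 | h3
    · exact mem_Pl i' (mem_sg_along h' ξ (hy1.trans h1) (h3.trans (le_max_left _ _)))
    · exact mem_Pl i (mem_sg_along h ξ ((min_le_left _ _).trans h3) (h2.trans hx2))

theorem along_base (B β : Pt) : Along B β B β 0 1 := ⟨by simp, by simp⟩

/-- an arm overlapping the segment from `B` to `B + β` -/
theorem Ov.data {B β q' a' : Pt} (h : Ov q' a' B β) :
    ∃ m l : ℝ, l ≠ 0 ∧ Along B β q' a' m l ∧ min m (m + l) < 1 ∧ 0 < max m (m + l) := by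
  obtain ⟨m, l, hl, hal⟩ := h.symm.along
  refine ⟨m, l, hl, hal, ?_⟩
  have := (ov_along_iff h.ne_zero.2 hl one_ne_zero hal (along_base B β)).mp h
  simpa using this

/-- `w` overlaps the arm `α` at `A` and the arm `β` at `B` -/
def Tch (q : V → Pt) (a : V → Fin 2 → Pt) (A α B β : Pt) (w : V) : Prop :=
  ∃ i i' : Fin 2, Ov (q w) (a w i) A α ∧ Ov (q w) (a w i') B β

/-- data for a common neighbour when the two arms are parallel -/
theorem par_data {A α B β : Pt} (hcr : cr α β = 0) {w : V} (h : Tch q a A α B β w) :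
    ∃ (i i' : Fin 2) (m l l' τ κ : ℝ), l ≠ 0 ∧ l' ≠ 0 ∧ κ ≠ 0 ∧ Along A α (q w) (a w i) m l ∧
      Along A α (q w) (a w i') m l' ∧ Along A α B β τ κ ∧ min m (m + l) < 1 ∧
      0 < max m (m + l) ∧ min m (m + l') < max τ (τ + κ) ∧ min τ (τ + κ) < max m (m + l') := by
  obtain ⟨i, i', h1, h2⟩ := h
  obtain ⟨m, l, hl, hal, h3, h4⟩ := h1.data
  have hα : α ≠ 0 := h1.ne_zero.2
  have hβ : β ≠ 0 := h2.ne_zero.2
  obtain ⟨m2, l2, hl2, hal2⟩ := h2.along
  -- the second arm is parallel to `α`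
  obtain ⟨c, hc⟩ : ∃ c : ℝ, β = c • α := by
    unfold cr at hcr
    by_cases h0 : α.1 = 0
    · have h0' : α.2 ≠ 0 := fun h => hα (Prod.ext h0 h)
      refine ⟨β.2 / α.2, Prod.ext ?_ ?_⟩
      · rw [h0, zero_mul, zero_sub, neg_eq_zero] at hcr
        rcases mul_eq_zero.mp hcr with h5 | h5
        · exact absurd h5 h0'
        · simp [h0, h5]
      · simp [h0']
    · refine ⟨β.1 / α.1, Prod.ext ?_ ?_⟩
      · simp [h0]
      · simp only [Prod.smul_snd, smul_eq_mul]
        field_simp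
        linarith
  have hc0 : c ≠ 0 := by
    rintro rfl; apply hβ; rw [hc, zero_smul]
  have hai' : a w i' = (c / l2) • α := by
    have h5 : β = l2 • a w i' := hal2.2
    rw [div_eq_inv_mul, mul_smul, ← hc, h5, smul_smul, inv_mul_cancel₀ hl2, one_smul]
  have hl' : c / l2 ≠ 0 := div_ne_zero hc0 hl2
  have hal' : Along A α (q w) (a w i') m (c / l2) := ⟨hal.1, hai'⟩
  have hB := hal'.trans hal2
  have hκ : l2 * (c / l2) ≠ 0 := mul_ne_zero hl2 hl'
  refine ⟨i, i', m, l, c / l2, _, _, hl, hl', hκ, hal, hal', hB, h3, h4, ?_⟩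
  exact (ov_along_iff hα hl' hκ hal' hB).mp h2

theorem par_adj {A α B β : Pt} (hcr : cr α β = 0) (hno : ¬ Ov A α B β) {w w' : V}
    (h : Tch q a A α B β w) (h' : Tch q a A α B β w') : Adj q a w w' := by
  have hα : α ≠ 0 := by
    obtain ⟨i, _, h1, _⟩ := h
    exact h1.ne_zero.2
  obtain ⟨i, i', m, l, l', τ, κ, hl, hl', hκ, e1, e2, e3, e4, e5, e6, e7⟩ := par_data hcr h
  obtain ⟨j, j', n, k, k', τ', κ', hk, hk', hκ', f1, f2, f3, f4, f5, f6, f7⟩ := par_data hcr h'
  have eτ : τ' = τ := line_inj hα (f3.1.symm.trans e3.1)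
  have eκ : κ' = κ := by
    have h1 : κ' • α = κ • α := f3.2.symm.trans e3.2
    have h2 : A + κ' • α = A + κ • α := by rw [h1]
    exact line_inj hα h2
  subst eτ eκ
  have hno' : ¬ (min (0 : ℝ) (0 + 1) < max τ' (τ' + κ') ∧ min τ' (τ' + κ') < max (0 : ℝ) (0 + 1)) := by
    rw [← ov_along_iff hα one_ne_zero hκ (along_base A α) e3]
    exact hno
  rw [zero_add, min_eq_left zero_le_one, max_eq_right zero_le_one, not_and_or, not_lt, not_lt] at hno'
  rcases hno' with h0 | h1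
  · -- the arm `β` is before `0`
    have g1 : min m (m + l') < 0 := lt_of_lt_of_le e6 h0
    have g2 : min n (n + k') < 0 := lt_of_lt_of_le f6 h0
    refine adj_of_line hα (B := A) (lo := max (min m (m + l')) (min n (n + k')))
      (hi := min (max m (m + l)) (max n (n + k))) ?_ ?_ ?_
    · exact (max_lt g1 g2).trans (lt_min e5 f5)
    · intro ξ h3 h4
      exact hull_mem e1 e2 (x := max m (m + l)) (y := min m (m + l'))
        (min_le_max) (le_refl _) (le_refl _) (min_le_max)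
        (Or.inr ⟨(le_max_left _ _).trans h3, h4.trans (min_le_left _ _)⟩)
    · intro ξ h3 h4
      exact hull_mem f1 f2 (x := max n (n + k)) (y := min n (n + k'))
        (min_le_max) (le_refl _) (le_refl _) (min_le_max)
        (Or.inr ⟨(le_max_right _ _).trans h3, h4.trans (min_le_right _ _)⟩)
  · have g1 : 1 < max m (m + l') := lt_of_le_of_lt h1 e7
    have g2 : 1 < max n (n + k') := lt_of_le_of_lt h1 f7
    refine adj_of_line hα (B := A) (lo := max (min m (m + l)) (min n (n + k)))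
      (hi := min (max m (m + l')) (max n (n + k'))) ?_ ?_ ?_
    · exact (max_lt e4 f4).trans (lt_min g1 g2)
    · intro ξ h3 h4
      exact hull_mem e1 e2 (x := min m (m + l)) (y := max m (m + l'))
        (le_refl _) (min_le_max) (min_le_max) (le_refl _)
        (Or.inl ⟨(le_max_left _ _).trans h3, h4.trans (min_le_left _ _)⟩)
    · intro ξ h3 h4
      exact hull_mem f1 f2 (x := min n (n + k)) (y := max n (n + k'))
        (le_refl _) (min_le_max) (min_le_max) (le_refl _)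
        (Or.inl ⟨(le_max_right _ _).trans h3, h4.trans (min_le_right _ _)⟩)

/-- a corner: one arm on the line `A + ℝ α` and the other one on the line `B + ℝ β` -/
def Corner (q : V → Pt) (a : V → Fin 2 → Pt) (A α B β : Pt) (w : V) (x y l m : ℝ) : Prop :=
  ∃ i i' : Fin 2, i ≠ i' ∧ l ≠ 0 ∧ m ≠ 0 ∧ Along A α (q w) (a w i) x l ∧
    Along B β (q w) (a w i') y m

theorem nonpar_data {A α B β : Pt} (hcr : cr α β ≠ 0) {w : V} (h : Tch q a A α B β w) :
    ∃ x y l m : ℝ, Corner q a A α B β w x y l m ∧ min x (x + l) < 1 ∧ 0 < max x (x + l) ∧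
      min y (y + m) < 1 ∧ 0 < max y (y + m) := by
  obtain ⟨i, i', h1, h2⟩ := h
  obtain ⟨x, l, hl, hal, h3, h4⟩ := h1.data
  obtain ⟨y, m, hm, ham, h5, h6⟩ := h2.data
  refine ⟨x, y, l, m, ⟨i, i', ?_, hl, hm, hal, ham⟩, h3, h4, h5, h6⟩
  rintro rfl
  exact hcr (cr_of_along hl hm hal ham)

theorem cross_unique {A α B β : Pt} (hcr : cr α β ≠ 0) {x y x' y' : ℝ}
    (h : A + x • α = B + y • β) (h' : A + x' • α = B + y' • β) : x = x' ∧ y = y' := by
  have h1 : (x - x') • α = (y - y') • β := by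
    have : A + x • α - (A + x' • α) = B + y • β - (B + y' • β) := by rw [h, h']
    rw [sub_smul, sub_smul]
    calc x • α - x' • α = A + x • α - (A + x' • α) := by abel
      _ = _ := this
      _ = _ := by abel
  have h2 : (x - x') * cr α β = 0 := by
    rw [← cr_smul_left, h1, cr_smul_left, cr_self, mul_zero]
  have h3 : (y - y') * cr α β = 0 := by
    rw [← cr_smul_right, ← h1, cr_smul_right, cr_self, mul_zero]
  rcases mul_eq_zero.mp h2 with h4 | h4
  · rcases mul_eq_zero.mp h3 with h5 | h5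
    · constructor <;> linarith
    · exact absurd h5 hcr
  · exact absurd h4 hcr

/-- arms on one line from the same bend -/
theorem same_base {B β : Pt} (hβ : β ≠ 0) {w w' : V} {i j : Fin 2} {x l l' : ℝ} (hl : l ≠ 0)
    (hl' : l' ≠ 0) (h : Along B β (q w) (a w i) x l) (h' : Along B β (q w') (a w' j) x l')
    (hn : ¬ Adj q a w w') : l * l' < 0 := by
  by_contra hcon
  apply hn
  refine ⟨i, j, (ov_along_iff hβ hl hl' h h').mpr ?_⟩
  rcases lt_or_gt_of_ne hl with h0 | h0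
  · rcases lt_or_gt_of_ne hl' with h1 | h1
    · rw [min_eq_right (by linarith), min_eq_right (by linarith), max_eq_left (by linarith),
        max_eq_left (by linarith)]
      constructor <;> linarith
    · exact absurd (mul_neg_of_neg_of_pos h0 h1) hcon
  · rcases lt_or_gt_of_ne hl' with h1 | h1
    · exact absurd (mul_neg_of_pos_of_neg h0 h1) hcon
    · rw [min_eq_left (by linarith), min_eq_left (by linarith), max_eq_right (by linarith),
        max_eq_right (by linarith)]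
      constructor <;> linarith

theorem no_three {l1 l2 l3 : ℝ} (h12 : l1 * l2 < 0) (h23 : l2 * l3 < 0) (h13 : l1 * l3 < 0) :
    False := by
  have : 0 < (l1 * l2) * (l2 * l3) := mul_pos_of_neg_of_neg h12 h23
  have h : (l1 * l2) * (l2 * l3) = l2 ^ 2 * (l1 * l3) := by ring
  rw [h] at this
  have h2 : 0 ≤ l2 ^ 2 := sq_nonneg _
  nlinarith

theorem interior_of_two {x l l' : ℝ} (h : l * l' < 0) (h1 : min x (x + l) < 1)
    (h2 : 0 < max x (x + l)) (h1' : min x (x + l') < 1) (h2' : 0 < max x (x + l')) :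
    0 < x ∧ x < 1 := by
  rcases lt_trichotomy l 0 with h0 | h0 | h0
  · have h3 : 0 < l' := by
      by_contra hc
      have := mul_nonneg_of_nonpos_of_nonpos h0.le (not_lt.mp hc)
      linarith
    rw [max_eq_left (by linarith)] at h2
    rw [min_eq_left (by linarith)] at h1'
    exact ⟨h2, h1'⟩
  · rw [h0, zero_mul] at h; exact absurd h (lt_irrefl _)
  · have h3 : l' < 0 := by
      by_contra hc
      have := mul_nonneg h0.le (not_lt.mp hc)
      linarith
    rw [max_eq_left (by linarith)] at h2'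
    rw [min_eq_left (by linarith)] at h1
    exact ⟨h2', h1⟩

/-- two non-adjacent vertices touching the same pair of arms -/
theorem two_data {A α B β : Pt} (hno : ¬ Ov A α B β) {w w' : V} (h : Tch q a A α B β w)
    (h' : Tch q a A α B β w') (hn : ¬ Adj q a w w') :
    cr α β ≠ 0 ∧ ∃ x y l m l' m' : ℝ, 0 < x ∧ x < 1 ∧ 0 < y ∧ y < 1 ∧
      Corner q a A α B β w x y l m ∧ Corner q a A α B β w' x y l' m' ∧ l * l' < 0 ∧
        m * m' < 0 := by
  have hcr : cr α β ≠ 0 := fun hcr => hn (par_adj hcr hno h h')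
  refine ⟨hcr, ?_⟩
  obtain ⟨x, y, l, m, hc, h1, h2, h3, h4⟩ := nonpar_data hcr h
  obtain ⟨x', y', l', m', hc', h1', h2', h3', h4'⟩ := nonpar_data hcr h'
  obtain ⟨i, i', hii, hl, hm, e1, e2⟩ := hc
  obtain ⟨j, j', hjj, hl', hm', f1, f2⟩ := hc'
  obtain ⟨rfl, rfl⟩ : x' = x ∧ y' = y := by
    have g1 : A + x • α = B + y • β := e1.1.symm.trans e2.1
    have g2 : A + x' • α = B + y' • β := f1.1.symm.trans f2.1
    exact cross_unique hcr g2 g1
  have hll := same_base (ne_zero_of_cr hcr).1 hl hl' e1 f1 hn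
  have hmm := same_base (ne_zero_of_cr hcr).2 hm hm' e2 f2 hn
  obtain ⟨hx0, hx1⟩ := interior_of_two hll h1 h2 h1' h2'
  obtain ⟨hy0, hy1⟩ := interior_of_two hmm h3 h4 h3' h4'
  exact ⟨x', y', l, m, l', m', hx0, hx1, hy0, hy1, ⟨i, i', hii, hl, hm, e1, e2⟩,
    ⟨j, j', hjj, hl', hm', f1, f2⟩, hll, hmm⟩

end Pool.Agent.Bend
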