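import Pool.Agent.Lib.MP_4b3eba_co.Hub

/-! Two non-adjacent hubs with eight pairwise non-adjacent common neighbours cross four times. -/

namespace Pool.Agent.Bend

variable {V : Type*} {q : V → Pt} {a : V → Fin 2 → Pt}

theorem smul_of_cr {α β : Pt} (hcr : cr α β = 0) (hα : α ≠ 0) : ∃ c : ℝ, β = c • α := by
  unfold cr at hcr
  by_cases h0 : α.1 = 0
  · have h0' : α.2 ≠ 0 := fun h => hα (Prod.ext h0 h)
    refine ⟨β.2 / α.2, Prod.ext ?_ ?_⟩
    · rw [h0, zero_mul, zero_sub, neg_eq_zero] at hcr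
      rcases mul_eq_zero.mp hcr with h5 | h5
      · exact absurd h5 h0'
      · simp [h0, h5]
    · simp [h0']
  · refine ⟨β.1 / α.1, Prod.ext ?_ ?_⟩
    · simp [h0]
    · simp only [Prod.smul_snd, smul_eq_mul]
      field_simp
      linarith

theorem three_false {B β : Pt} (hβ : β ≠ 0) {w1 w2 w3 : V} {i j k : Fin 2} {x l1 l2 l3 : ℝ}
    (h1 : l1 ≠ 0) (h2 : l2 ≠ 0) (h3 : l3 ≠ 0) (e1 : Along B β (q w1) (a w1 i) x l1)
    (e2 : Along B β (q w2) (a w2 j) x l2) (e3 : Along B β (q w3) (a w3 k) x l3)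
    (n12 : ¬ Adj q a w1 w2) (n23 : ¬ Adj q a w2 w3) (n13 : ¬ Adj q a w1 w3) : False :=
  no_three (same_base hβ h1 h2 e1 e2 n12) (same_base hβ h2 h3 e2 e3 n23)
    (same_base hβ h1 h3 e1 e3 n13)

/-- data of two hubs crossing four times, with eight corners -/
structure Quad (q : V → Pt) (a : V → Fin 2 → Pt) (u v : V) (w : Fin 8 → V)
    (loc : Fin 8 → Fin 2 × Fin 2) (x y : Fin 2 → Fin 2 → ℝ) (l m : Fin 8 → ℝ) : Prop where
  fib : ∀ p, (Finset.univ.filter (fun n => loc n = p)).card = 2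
  cross : ∀ s t, 0 < x s t ∧ x s t < 1 ∧ 0 < y s t ∧ y s t < 1 ∧
    q u + x s t • a u s = q v + y s t • a v t ∧ cr (a u s) (a v t) ≠ 0
  corner : ∀ n, Corner q a (q u) (a u (loc n).1) (q v) (a v (loc n).2) (w n)
    (x (loc n).1 (loc n).2) (y (loc n).1 (loc n).2) (l n) (m n)
  cru : cr (a u 0) (a u 1) ≠ 0
  crv : cr (a v 0) (a v 1) ≠ 0

theorem k28 {u v : V} (huv : ¬ Adj q a u v) (w : Fin 8 → V) (hu : ∀ n, Adj q a (w n) u)
    (hv : ∀ n, Adj q a (w n) v) (hw : ∀ n n', n ≠ n' → ¬ Adj q a (w n) (w n')) :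
    ∃ loc x y l m, Quad q a u v w loc x y l m := by
  have hno : ∀ s t, ¬ Ov (q u) (a u s) (q v) (a v t) := fun s t h => huv ⟨s, t, h⟩
  have hT : ∀ n, ∃ p : Fin 2 × Fin 2, Tch q a (q u) (a u p.1) (q v) (a v p.2) (w n) := by
    intro n
    obtain ⟨i, s, h1⟩ := hu n
    obtain ⟨i', t, h2⟩ := hv n
    exact ⟨(s, t), i, i', h1, h2⟩
  choose loc hloc using hT
  -- at most two in each fibre
  have hle : ∀ p, (Finset.univ.filter (fun n => loc n = p)).card ≤ 2 := by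
    intro p
    by_contra hcon
    rw [not_le, Finset.two_lt_card] at hcon
    obtain ⟨n1, h1, n2, h2, n3, h3, h12, h13, h23⟩ := hcon
    simp only [Finset.mem_filter, Finset.mem_univ, true_and] at h1 h2 h3
    have t1 := hloc n1
    have t2 := hloc n2
    have t3 := hloc n3
    rw [h1] at t1
    rw [h2] at t2
    rw [h3] at t3
    obtain ⟨hcr, _⟩ := two_data (hno _ _) t1 t2 (hw _ _ h12)
    obtain ⟨x1, y1, l1, m1, ⟨i1, i1', _, hl1, hm1, e1, f1⟩, _⟩ := nonpar_data hcr t1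
    obtain ⟨x2, y2, l2, m2, ⟨i2, i2', _, hl2, hm2, e2, f2⟩, _⟩ := nonpar_data hcr t2
    obtain ⟨x3, y3, l3, m3, ⟨i3, i3', _, hl3, hm3, e3, f3⟩, _⟩ := nonpar_data hcr t3
    obtain ⟨rfl, -⟩ := cross_unique hcr (e1.1.symm.trans f1.1) (e2.1.symm.trans f2.1)
    obtain ⟨rfl, -⟩ := cross_unique hcr (e1.1.symm.trans f1.1) (e3.1.symm.trans f3.1)
    exact three_false (ne_zero_of_cr hcr).1 hl1 hl2 hl3 e1 e2 e3 (hw _ _ h12) (hw _ _ h23)
      (hw _ _ h13)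
  have hfib : ∀ p, (Finset.univ.filter (fun n => loc n = p)).card = 2 := by
    have h8 : ∑ p : Fin 2 × Fin 2, (Finset.univ.filter (fun n => loc n = p)).card
        = ∑ p : Fin 2 × Fin 2, 2 := by
      rw [← Finset.card_eq_sum_card_fiberwise (f := loc) (s := Finset.univ) (t := Finset.univ)
        (fun _ _ => Finset.mem_coe.mpr (Finset.mem_univ _))]
      simp
    intro p
    exact (Finset.sum_eq_sum_iff_of_le (fun p _ => hle p)).mp h8 p (Finset.mem_univ _)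
  have htwo : ∀ p, ∃ n n', n ≠ n' ∧ loc n = p ∧ loc n' = p := by
    intro p
    obtain ⟨n, n', hnn, he⟩ := Finset.card_eq_two.mp (hfib p)
    have h1 : n ∈ Finset.univ.filter (fun n => loc n = p) := by rw [he]; simp
    have h2 : n' ∈ Finset.univ.filter (fun n => loc n = p) := by rw [he]; simp
    simp only [Finset.mem_filter, Finset.mem_univ, true_and] at h1 h2
    exact ⟨n, n', hnn, h1, h2⟩
  have hX : ∀ s t, ∃ x y : ℝ, 0 < x ∧ x < 1 ∧ 0 < y ∧ y < 1 ∧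
      q u + x • a u s = q v + y • a v t ∧ cr (a u s) (a v t) ≠ 0 := by
    intro s t
    obtain ⟨n, n', hnn, h1, h2⟩ := htwo (s, t)
    have t1 := hloc n
    have t2 := hloc n'
    rw [h1] at t1
    rw [h2] at t2
    obtain ⟨hcr, x, y, l, m, l', m', hx0, hx1, hy0, hy1, ⟨i, i', _, _, _, e, f⟩, _⟩ :=
      two_data (hno _ _) t1 t2 (hw _ _ hnn)
    exact ⟨x, y, hx0, hx1, hy0, hy1, e.1.symm.trans f.1, hcr⟩
  choose x y hxy using hX
  have hC : ∀ n, ∃ l m : ℝ, Corner q a (q u) (a u (loc n).1) (q v) (a v (loc n).2) (w n)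
      (x (loc n).1 (loc n).2) (y (loc n).1 (loc n).2) l m := by
    intro n
    obtain ⟨_, _, _, _, he, hcr⟩ := hxy (loc n).1 (loc n).2
    obtain ⟨x1, y1, l1, m1, ⟨i1, i1', hii, hl1, hm1, e1, f1⟩, _⟩ := nonpar_data hcr (hloc n)
    obtain ⟨h1, h2⟩ := cross_unique hcr (e1.1.symm.trans f1.1) he
    subst h1 h2
    exact ⟨l1, m1, i1, i1', hii, hl1, hm1, e1, f1⟩
  choose l m hlm using hC
  refine ⟨loc, x, y, l, m, hfib, hxy, hlm, ?_, ?_⟩
  · intro hcr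
    obtain ⟨n1, n2, h12, k1, k2⟩ := htwo (0, 0)
    obtain ⟨n3, _, _, k3, _⟩ := htwo (1, 0)
    have h13 : n1 ≠ n3 := by rintro rfl; rw [k1] at k3; simp at k3
    have h23 : n2 ≠ n3 := by rintro rfl; rw [k2] at k3; simp at k3
    obtain ⟨_, _, _, _, he0, hc0⟩ := hxy 0 0
    obtain ⟨_, _, _, _, he1, hc1⟩ := hxy 1 0
    have hα0 := (ne_zero_of_cr hc0).1
    obtain ⟨c, hc⟩ := smul_of_cr hcr hα0
    have hcne : c ≠ 0 := by
      rintro rfl
      exact (ne_zero_of_cr hc1).1 (by rw [hc, zero_smul])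
    obtain ⟨i1, i1', _, hl1, hm1, e1, f1⟩ := hlm n1
    obtain ⟨i2, i2', _, hl2, hm2, e2, f2⟩ := hlm n2
    obtain ⟨i3, i3', _, hl3, hm3, e3, f3⟩ := hlm n3
    rw [k1] at e1 f1
    rw [k2] at e2 f2
    rw [k3] at e3 f3
    simp only at e1 f1 e2 f2 e3 f3
    have e3' : Along (q u) (a u 0) (q (w n3)) (a (w n3) i3) (x 1 0 * c) (l n3 * c) := by
      refine ⟨?_, ?_⟩
      · rw [mul_smul, ← hc]; exact e3.1
      · rw [mul_smul, ← hc]; exact e3.2
    obtain ⟨h1, h2⟩ := cross_unique hc0 (e3'.1.symm.trans f3.1) he0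
    rw [h1] at e3'
    exact three_false hα0 hl1 hl2 (mul_ne_zero hl3 hcne) e1 e2 e3' (hw _ _ h12) (hw _ _ h23)
      (hw _ _ h13)
  · intro hcr
    obtain ⟨n1, n2, h12, k1, k2⟩ := htwo (0, 0)
    obtain ⟨n3, _, _, k3, _⟩ := htwo (0, 1)
    have h13 : n1 ≠ n3 := by rintro rfl; rw [k1] at k3; simp at k3
    have h23 : n2 ≠ n3 := by rintro rfl; rw [k2] at k3; simp at k3
    obtain ⟨_, _, _, _, he0, hc0⟩ := hxy 0 0
    obtain ⟨_, _, _, _, he1, hc1⟩ := hxy 0 1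
    have hα0 := (ne_zero_of_cr hc0).2
    obtain ⟨c, hc⟩ := smul_of_cr hcr hα0
    have hcne : c ≠ 0 := by
      rintro rfl
      exact (ne_zero_of_cr hc1).2 (by rw [hc, zero_smul])
    obtain ⟨i1, i1', _, hl1, hm1, f1, e1⟩ := hlm n1
    obtain ⟨i2, i2', _, hl2, hm2, f2, e2⟩ := hlm n2
    obtain ⟨i3, i3', _, hl3, hm3, f3, e3⟩ := hlm n3
    rw [k1] at e1 f1
    rw [k2] at e2 f2
    rw [k3] at e3 f3
    simp only at e1 f1 e2 f2 e3 f3
    have e3' : Along (q v) (a v 0) (q (w n3)) (a (w n3) i3') (y 0 1 * c) (m n3 * c) := by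
      refine ⟨?_, ?_⟩
      · rw [mul_smul, ← hc]; exact e3.1
      · rw [mul_smul, ← hc]; exact e3.2
    obtain ⟨h1, h2⟩ := cross_unique hc0 (f3.1.symm.trans e3'.1) he0
    rw [h2] at e3'
    exact three_false hα0 hm1 hm2 (mul_ne_zero hm3 hcne) e1 e2 e3' (hw _ _ h12) (hw _ _ h23)
      (hw _ _ h13)

end Pool.Agent.Bend
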