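import Pool.Agent.Lib.MP_4b3eba_co.Order
import Pool.Agent.Lib.MP_4b3eba_co.Core

/-! Non-representability with the four directions `0, 45, 90, 135` degrees and one bend. -/

namespace Pool.Agent.Bend

variable {V : Type*} {q : V → Pt} {a : V → Fin 2 → Pt}

/-- the order of the corners along a hub -/
theorem hub_order {h : V} (hβ : cr (a h 0) (a h 1) ≠ 0) (opp : Fin 2 → V) (cor : Fin 2 × Fin 8 → V)
    (t : Fin 2 × Fin 8 → Fin 2) (y m : Fin 2 × Fin 8 → ℝ) (hm : ∀ p, m p ≠ 0)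
    (hc : ∀ p, HC q a h (opp p.1) (cor p) (t p) (y p) (m p))
    (hcc : ∀ p p', p ≠ p' → ¬ Adj q a (cor p) (cor p')) (L : ℕ → Fin 2 × Fin 8)
    (hL : ∀ k < 16, ∀ k' < 16, k ≠ k' → L k ≠ L k') (z : ℕ → V)
    (hz : ∀ k < 15, Adj q a (z k) h) (hzo : ∀ k < 15, ∀ o, ¬ Adj q a (z k) (opp o))
    (hz1 : ∀ k < 15, Adj q a (z k) (cor (L k))) (hz2 : ∀ k < 15, Adj q a (z k) (cor (L (k + 1))))
    (hz3 : ∀ k < 15, ∀ j < 16, j ≠ k → j ≠ k + 1 → ¬ Adj q a (z k) (cor (L j))) :
    ∃ t0 : Fin 2, ∀ k k', k < k' → k' < 16 →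
      Rt t0 (t (L k)) (y (L k)) (m (L k)) ≤ Lf t0 (t (L k')) (y (L k')) (m (L k')) := by
  have hlink : ∀ k, k + 1 < 16 → ∃ M N,
      (M ≤ Rt 1 (t (L k)) (y (L k)) (m (L k)) ∧ Lf 1 (t (L k)) (y (L k)) (m (L k)) ≤ N) ∧
      (M ≤ Rt 1 (t (L (k + 1))) (y (L (k + 1))) (m (L (k + 1))) ∧
        Lf 1 (t (L (k + 1))) (y (L (k + 1))) (m (L (k + 1))) ≤ N) ∧
      ∀ j < 16, j ≠ k → j ≠ k + 1 →
        N ≤ Lf 1 (t (L j)) (y (L j)) (m (L j)) ∨ Rt 1 (t (L j)) (y (L j)) (m (L j)) ≤ M := by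
    intro k hk
    have hk' : k < 15 := by omega
    obtain ⟨t0, M, N, H⟩ := link_trace hβ (hz k hk')
    have H1 := (H _ _ _ _ _ (hc (L k)) (hzo k hk' _)).1 (hz1 k hk')
    have H2 := (H _ _ _ _ _ (hc (L (k + 1))) (hzo k hk' _)).1 (hz2 k hk')
    have H3 := fun j (hj : j < 16) (h1 : j ≠ k) (h2 : j ≠ k + 1) =>
      (H _ _ _ _ _ (hc (L j)) (hzo k hk' _)).2 (hz3 k hk' j hj h1 h2)
    by_cases ht0 : t0 = 1
    · subst ht0
      exact ⟨M, N, H1, H2, H3⟩
    · refine ⟨-N, -M, ?_, ?_, ?_⟩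
      · rw [swap_Lf ht0, swap_Rt ht0]
        exact ⟨neg_le_neg H1.2, neg_le_neg H1.1⟩
      · rw [swap_Lf ht0, swap_Rt ht0]
        exact ⟨neg_le_neg H2.2, neg_le_neg H2.1⟩
      · intro j hj h1 h2
        rw [swap_Lf ht0, swap_Rt ht0]
        rcases H3 j hj h1 h2 with h3 | h3
        · right; exact neg_le_neg h3
        · left; exact neg_le_neg h3
  rcases order_both 16 (by norm_num) (fun k => Lf 1 (t (L k)) (y (L k)) (m (L k)))
    (fun k => Rt 1 (t (L k)) (y (L k)) (m (L k)))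
    (fun k _ => Lf_lt_Rt _ _ (hc (L k)).1 (hm _))
    (fun k hk k' hk' hne => disj_corner 1 hβ (hc (L k)) (hc (L k'))
      (hcc _ _ (hL k hk k' hk' hne))) hlink with h1 | h1
  · exact ⟨1, h1⟩
  · refine ⟨0, fun k k' hkk hk' => ?_⟩
    rw [swap_Lf (t0 := 1) (t1 := 0) (by decide), swap_Rt (t0 := 1) (t1 := 0) (by decide)]
    exact neg_le_neg (h1 k k' hkk hk')

/-- the other arm -/
def ar (t0 e : Fin 2) : Fin 2 := if e = 1 then t0 else t0 + 1

theorem ar_ne (t0 : Fin 2) : t0 + 1 ≠ t0 := by omega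

/-- consequences of the order along a hub, with positions `P` -/
structure Mono (t0 : Fin 2) (t : Fin 2 × Fin 8 → Fin 2) (y : Fin 2 × Fin 8 → ℝ)
    (P : Fin 2 × Fin 8 → ℕ) : Prop where
  arm : ∀ p p', P p < P p' → t p = t0 → t p' = t0
  lt : ∀ p p', P p + 1 < P p' → Cc t0 (t p) (y p) < Cc t0 (t p') (y p')

theorem mono_of_order {t0 : Fin 2} {t : Fin 2 × Fin 8 → Fin 2} {y m : Fin 2 × Fin 8 → ℝ}
    (hy : ∀ p, 0 < y p) (hm : ∀ p, m p ≠ 0) {L : ℕ → Fin 2 × Fin 8} {P : Fin 2 × Fin 8 → ℕ}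
    (hP : ∀ p, L (P p) = p) (hP' : ∀ p, P p < 16)
    (H : ∀ k k', k < k' → k' < 16 →
      Rt t0 (t (L k)) (y (L k)) (m (L k)) ≤ Lf t0 (t (L k')) (y (L k')) (m (L k'))) :
    Mono t0 t y P := by
  refine ⟨?_, ?_⟩
  · intro p p' hpp ht
    have h1 := H _ _ hpp (hP' p')
    rw [hP, hP] at h1
    by_contra hne
    unfold Rt Lf at h1
    rw [if_pos ht, if_neg hne] at h1
    have h2 := hi_pos (m := m p) (hy p)
    have h3 := hi_pos (m := m p') (hy p')
    linarith
  · intro p p' hpp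
    have h1 := H (P p) (P p + 1) (by omega) (by have := hP' p'; omega)
    have h2 := H (P p + 1) (P p') hpp (hP' p')
    rw [hP] at h1 h2
    have h3 := Lf_lt_Rt t0 (t (L (P p + 1))) (hy (L (P p + 1))) (hm (L (P p + 1)))
    have h4 := (Cc_mem t0 (t p) (m := m p) (hy p)).2
    have h5 := (Cc_mem t0 (t p') (m := m p') (hy p')).1
    linarith

/-- an upward closed set of four elements -/
theorem upper_four (b : Fin 8 → Prop) [DecidablePred b] (hb : ∀ k k', k < k' → b k → b k')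
    (hcard : (Finset.univ.filter b).card = 4) : ∀ k : Fin 8, b k ↔ 4 ≤ k.val := by
  have h3 : ¬ b 3 := by
    intro h
    have hsub : ({3, 4, 5, 6, 7} : Finset (Fin 8)) ⊆ Finset.univ.filter b := by
      intro k hk
      rw [Finset.mem_filter]
      refine ⟨Finset.mem_univ _, ?_⟩
      simp only [Finset.mem_insert, Finset.mem_singleton] at hk
      rcases hk with rfl | rfl | rfl | rfl | rfl
      · exact h
      · exact hb 3 4 (by decide) h
      · exact hb 3 5 (by decide) h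
      · exact hb 3 6 (by decide) h
      · exact hb 3 7 (by decide) h
    have := Finset.card_le_card hsub
    rw [hcard] at this
    exact absurd this (by decide)
  have h4 : b 4 := by
    by_contra h
    have hsub : Finset.univ.filter b ⊆ ({5, 6, 7} : Finset (Fin 8)) := by
      intro k hk
      rw [Finset.mem_filter] at hk
      have hk4 : ¬ k < 4 := fun h5 => h (hb k 4 h5 hk.2)
      have hk4' : k ≠ 4 := fun h5 => h (h5 ▸ hk.2)
      simp only [Finset.mem_insert, Finset.mem_singleton]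
      omega
    have := Finset.card_le_card hsub
    rw [hcard] at this
    exact absurd this (by decide)
  intro k
  constructor
  · intro hk
    by_contra h
    have h5 : k ≤ 3 := by omega
    rcases lt_or_eq_of_le h5 with h6 | h6
    · exact h3 (hb k 3 h6 hk)
    · exact h3 (h6 ▸ hk)
  · intro hk
    rcases eq_or_lt_of_le (show (4 : Fin 8) ≤ k by omega) with h6 | h6
    · exact h6 ▸ h4
    · exact hb 4 k h6 h4

/-- labels of the corners: first index `s`, second index `t` -/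
def ls (n : Fin 8) : Fin 2 := ![0, 0, 0, 0, 1, 1, 1, 1] n
def lt (n : Fin 8) : Fin 2 := ![0, 0, 1, 1, 0, 0, 1, 1] n

/-- order of the eight corners of a pair along the first hub and along the second hub -/
def fu (k : Fin 8) : Fin 8 := ![2, 3, 0, 1, 4, 5, 6, 7] k
def fv (k : Fin 8) : Fin 8 := ![4, 5, 0, 1, 2, 3, 6, 7] k

theorem card_fst {loc : Fin 8 → Fin 2 × Fin 2}
    (h : ∀ p, (Finset.univ.filter (fun n => loc n = p)).card = 2) (t0 : Fin 2) :
    (Finset.univ.filter (fun n => (loc n).1 = t0)).card = 4 := by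
  have : Finset.univ.filter (fun n => (loc n).1 = t0) =
      Finset.univ.filter (fun n => loc n = (t0, 0)) ∪
        Finset.univ.filter (fun n => loc n = (t0, 1)) := by
    ext n
    simp only [Finset.mem_filter, Finset.mem_univ, true_and, Finset.mem_union, Prod.ext_iff]
    constructor
    · intro h1
      have : (loc n).2 = 0 ∨ (loc n).2 = 1 := by omega
      rcases this with h2 | h2
      · exact Or.inl ⟨h1, h2⟩
      · exact Or.inr ⟨h1, h2⟩
    · rintro (h1 | h1)
      · exact h1.1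
      · exact h1.1
  rw [this, Finset.card_union_of_disjoint, h, h]
  rw [Finset.disjoint_left]
  intro n h1 h2
  simp only [Finset.mem_filter, Finset.mem_univ, true_and] at h1 h2
  rw [h1] at h2
  simp at h2

theorem card_snd {loc : Fin 8 → Fin 2 × Fin 2}
    (h : ∀ p, (Finset.univ.filter (fun n => loc n = p)).card = 2) (t0 : Fin 2) :
    (Finset.univ.filter (fun n => (loc n).2 = t0)).card = 4 := by
  have : Finset.univ.filter (fun n => (loc n).2 = t0) =
      Finset.univ.filter (fun n => loc n = (0, t0)) ∪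
        Finset.univ.filter (fun n => loc n = (1, t0)) := by
    ext n
    simp only [Finset.mem_filter, Finset.mem_univ, true_and, Finset.mem_union, Prod.ext_iff]
    constructor
    · intro h1
      have : (loc n).1 = 0 ∨ (loc n).1 = 1 := by omega
      rcases this with h2 | h2
      · exact Or.inl ⟨h2, h1⟩
      · exact Or.inr ⟨h2, h1⟩
    · rintro (h1 | h1)
      · exact h1.2
      · exact h1.2
  rw [this, Finset.card_union_of_disjoint, h, h]
  rw [Finset.disjoint_left]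
  intro n h1 h2
  simp only [Finset.mem_filter, Finset.mem_univ, true_and] at h1 h2
  rw [h1] at h2
  simp at h2

theorem card_perm {b : Fin 8 → Prop} [DecidablePred b] {f : Fin 8 → Fin 8}
    (hf : Function.Bijective f) (h : (Finset.univ.filter b).card = 4) :
    (Finset.univ.filter (fun k => b (f k))).card = 4 := by
  rw [← h]
  apply Finset.card_bij (fun k _ => f k)
  · intro k hk
    simpa using hk
  · intro k _ k' _ hkk
    exact hf.1 hkk
  · intro n hn
    obtain ⟨k, rfl⟩ := hf.2 n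
    exact ⟨k, by simpa using hn, rfl⟩

theorem arm_label {t0 x : Fin 2} {e : Fin 2} (h : x = t0 ↔ e = 1) : x = ar t0 e := by
  unfold ar
  by_cases he : e = 1
  · rw [if_pos he]; exact h.mpr he
  · rw [if_neg he]
    have : x ≠ t0 := fun h1 => he (h.mp h1)
    omega

/-- The positions of the corners along the hubs, and the corners at given positions. -/
structure Lists (LX LY : Fin 2 → ℕ → Fin 2 × Fin 8) (PX PY : Fin 2 → Fin 2 × Fin 8 → ℕ) : Prop where
  X1 : ∀ i p, LX i (PX i p) = p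
  X2 : ∀ i p, PX i p < 16
  X3 : ∀ i, ∀ k < 16, ∀ k' < 16, k ≠ k' → LX i k ≠ LX i k'
  Y1 : ∀ j p, LY j (PY j p) = p
  Y2 : ∀ j p, PY j p < 16
  Y3 : ∀ j, ∀ k < 16, ∀ k' < 16, k ≠ k' → LY j k ≠ LY j k'
  X4 : ∀ i j, ∀ k k' : Fin 8, k < k' → PX i (j, fu k) < PX i (j, fu k')
  Y4 : ∀ j i, ∀ k k' : Fin 8, k < k' → PY j (i, fv k) < PY j (i, fv k')
  X5 : PX 1 (1, 0) + 1 < PX 1 (0, 2)
  Y5 : PY 1 (0, 6) + 1 < PY 1 (1, 2)

theorem negative {LX LY : Fin 2 → ℕ → Fin 2 × Fin 8} {PX PY : Fin 2 → Fin 2 × Fin 8 → ℕ}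
    (hl : Lists LX LY PX PY)
    (hu hv : Fin 2 → V) (cor : Fin 2 → Fin 2 → Fin 8 → V) (zx zy : Fin 2 → ℕ → V)
    (h1 : ∀ i j, ¬ Adj q a (hu i) (hv j))
    (h2 : ∀ i j n, Adj q a (cor i j n) (hu i)) (h3 : ∀ i j n, Adj q a (cor i j n) (hv j))
    (h4 : ∀ i j n i' j' n', (i, j, n) ≠ (i', j', n') → ¬ Adj q a (cor i j n) (cor i' j' n'))
    (x1 : ∀ i, ∀ k < 15, Adj q a (zx i k) (hu i)) (x2 : ∀ i, ∀ k < 15, ∀ j, ¬ Adj q a (zx i k) (hv j))
    (x3 : ∀ i, ∀ k < 15, Adj q a (zx i k) (cor i (LX i k).1 (LX i k).2))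
    (x4 : ∀ i, ∀ k < 15, Adj q a (zx i k) (cor i (LX i (k + 1)).1 (LX i (k + 1)).2))
    (x5 : ∀ i, ∀ k < 15, ∀ j < 16, j ≠ k → j ≠ k + 1 →
      ¬ Adj q a (zx i k) (cor i (LX i j).1 (LX i j).2))
    (y1 : ∀ j, ∀ k < 15, Adj q a (zy j k) (hv j)) (y2 : ∀ j, ∀ k < 15, ∀ i, ¬ Adj q a (zy j k) (hu i))
    (y3 : ∀ j, ∀ k < 15, Adj q a (zy j k) (cor (LY j k).1 j (LY j k).2))
    (y4 : ∀ j, ∀ k < 15, Adj q a (zy j k) (cor (LY j (k + 1)).1 j (LY j (k + 1)).2))
    (y5 : ∀ j, ∀ k < 15, ∀ i < 16, i ≠ k → i ≠ k + 1 →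
      ¬ Adj q a (zy j k) (cor (LY j i).1 j (LY j i).2))
    (hD : ∀ y i, a y i ≠ 0 → IsDir (a y i)) : False := by
  have K : ∀ i j, ∃ loc x y l m, Quad q a (hu i) (hv j) (cor i j) loc x y l m := by
    intro i j
    refine k28 (h1 i j) (cor i j) (h2 i j) (h3 i j) ?_
    intro n n' hn
    apply h4
    intro he
    exact hn (by simpa using he)
  choose loc x y l m Q using K
  -- the order along the first hubs
  have HX : ∀ i, ∃ t0, Mono t0 (fun p : Fin 2 × Fin 8 => (loc i p.1 p.2).1)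
      (fun p => x i p.1 (loc i p.1 p.2).1 (loc i p.1 p.2).2) (PX i) := by
    intro i
    have hc : ∀ p : Fin 2 × Fin 8, HC q a (hu i) (hv p.1) (cor i p.1 p.2) (loc i p.1 p.2).1
        (x i p.1 (loc i p.1 p.2).1 (loc i p.1 p.2).2) (l i p.1 p.2) := by
      intro p
      have hQ := Q i p.1
      refine ⟨(hQ.cross _ _).1, (loc i p.1 p.2).2, _, _, (hQ.corner p.2).symm, ?_⟩
      intro t'
      obtain ⟨e1, e2, e3, e4, e5, e6⟩ := hQ.cross t' (loc i p.1 p.2).2
      exact ⟨_, _, e3, e4, e5.symm, by rw [cr_comm]; exact neg_ne_zero.mpr e6⟩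
    have hm : ∀ p : Fin 2 × Fin 8, l i p.1 p.2 ≠ 0 := by
      intro p
      obtain ⟨_, _, _, h, _⟩ := (Q i p.1).corner p.2
      exact h
    obtain ⟨t0, H⟩ := hub_order (Q i 0).cru hv (fun p => cor i p.1 p.2)
      (fun p => (loc i p.1 p.2).1) (fun p => x i p.1 (loc i p.1 p.2).1 (loc i p.1 p.2).2)
      (fun p => l i p.1 p.2) hm hc
      (fun p p' hpp => h4 _ _ _ _ _ _ (fun he => hpp (by
        simp only [Prod.mk.injEq, true_and] at he
        exact Prod.ext he.1 he.2))) (LX i) (hl.X3 i) (zx i) (x1 i) (x2 i) (x3 i) (x4 i) (x5 i)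
    exact ⟨t0, mono_of_order (fun p => (hc p).1) hm (hl.X1 i) (hl.X2 i) H⟩
  have HY : ∀ j, ∃ t0, Mono t0 (fun p : Fin 2 × Fin 8 => (loc p.1 j p.2).2)
      (fun p => y p.1 j (loc p.1 j p.2).1 (loc p.1 j p.2).2) (PY j) := by
    intro j
    have hc : ∀ p : Fin 2 × Fin 8, HC q a (hv j) (hu p.1) (cor p.1 j p.2) (loc p.1 j p.2).2
        (y p.1 j (loc p.1 j p.2).1 (loc p.1 j p.2).2) (m p.1 j p.2) := by
      intro p
      have hQ := Q p.1 j
      refine ⟨(hQ.cross _ _).2.2.1, (loc p.1 j p.2).1, _, _, hQ.corner p.2, ?_⟩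
      intro t'
      obtain ⟨e1, e2, e3, e4, e5, e6⟩ := hQ.cross (loc p.1 j p.2).1 t'
      exact ⟨_, _, e1, e2, e5, e6⟩
    have hm : ∀ p : Fin 2 × Fin 8, m p.1 j p.2 ≠ 0 := by
      intro p
      obtain ⟨_, _, _, _, h, _⟩ := (Q p.1 j).corner p.2
      exact h
    obtain ⟨t0, H⟩ := hub_order (Q 0 j).crv hu (fun p => cor p.1 j p.2)
      (fun p => (loc p.1 j p.2).2) (fun p => y p.1 j (loc p.1 j p.2).1 (loc p.1 j p.2).2)
      (fun p => m p.1 j p.2) hm hc
      (fun p p' hpp => h4 _ _ _ _ _ _ (fun he => hpp (by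
        simp only [Prod.mk.injEq, true_and] at he
        exact Prod.ext he.1 he.2))) (LY j) (hl.Y3 j) (zy j) (y1 j) (y2 j) (y3 j) (y4 j) (y5 j)
    exact ⟨t0, mono_of_order (fun p => (hc p).1) hm (hl.Y1 j) (hl.Y2 j) H⟩
  choose su SU using HX
  choose sv SV using HY
  -- the location of the corners
  have hs : ∀ i j n, (loc i j n).1 = ar (su i) (ls n) := by
    intro i j n
    apply arm_label
    have hb : Function.Bijective fu := by decide
    have h5 := upper_four (fun k => (loc i j (fu k)).1 = su i)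
      (fun k k' hkk => (SU i).arm (j, fu k) (j, fu k') (hl.X4 i j k k' hkk))
      (card_perm hb (card_fst (Q i j).fib (su i)))
    obtain ⟨k, rfl⟩ := hb.2 n
    rw [h5 k]
    revert k
    decide
  have ht : ∀ i j n, (loc i j n).2 = ar (sv j) (lt n) := by
    intro i j n
    apply arm_label
    have hb : Function.Bijective fv := by decide
    have h5 := upper_four (fun k => (loc i j (fv k)).2 = sv j)
      (fun k k' hkk => (SV j).arm (i, fv k) (i, fv k') (hl.Y4 j i k k' hkk))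
      (card_perm hb (card_snd (Q i j).fib (sv j)))
    obtain ⟨k, rfl⟩ := hb.2 n
    rw [h5 k]
    revert k
    decide
  -- the strict order of the crossings
  have OX : ∀ i j n j' n', PX i (j, n) + 1 < PX i (j', n') →
      Cc (su i) (ar (su i) (ls n)) (x i j (ar (su i) (ls n)) (ar (sv j) (lt n))) <
      Cc (su i) (ar (su i) (ls n')) (x i j' (ar (su i) (ls n')) (ar (sv j') (lt n'))) := by
    intro i j n j' n' hlt
    have := (SU i).lt (j, n) (j', n') hlt
    simp only [hs, ht] at this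
    exact this
  have OY : ∀ j i n i' n', PY j (i, n) + 1 < PY j (i', n') →
      Cc (sv j) (ar (sv j) (lt n)) (y i j (ar (su i) (ls n)) (ar (sv j) (lt n))) <
      Cc (sv j) (ar (sv j) (lt n')) (y i' j (ar (su i') (ls n')) (ar (sv j) (lt n'))) := by
    intro j i n i' n' hlt
    have := (SV j).lt (i, n) (i', n') hlt
    simp only [hs, ht] at this
    exact this
  have C1 : ∀ (t0 : Fin 2) (z : ℝ), Cc t0 (ar t0 1) z = z := by
    intro t0 z; simp [Cc, ar]
  have C0 : ∀ (t0 : Fin 2) (z : ℝ), Cc t0 (ar t0 0) z = - z := by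
    intro t0 z
    have : t0 + 1 ≠ t0 := ar_ne t0
    simp [Cc, ar]
  have gapX : ∀ i j, ∀ k k' : Fin 8, k.val + 1 < k'.val → PX i (j, fu k) + 1 < PX i (j, fu k') := by
    intro i j k k' hk
    have hk1 : k.val + 1 < 8 := by omega
    have g1 := hl.X4 i j k ⟨k.val + 1, hk1⟩ (by rw [Fin.lt_def]; simp)
    have g2 := hl.X4 i j ⟨k.val + 1, hk1⟩ k' (by rw [Fin.lt_def]; exact hk)
    omega
  have gapY : ∀ j i, ∀ k k' : Fin 8, k.val + 1 < k'.val → PY j (i, fv k) + 1 < PY j (i, fv k') := by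
    intro j i k k' hk
    have hk1 : k.val + 1 < 8 := by omega
    have g1 := hl.Y4 j i k ⟨k.val + 1, hk1⟩ (by rw [Fin.lt_def]; simp)
    have g2 := hl.Y4 j i ⟨k.val + 1, hk1⟩ k' (by rw [Fin.lt_def]; exact hk)
    omega
  have hdirA : ∀ i s, IsDir (a (hu i) s) := by
    intro i s
    exact hD _ _ (ne_zero_of_cr ((Q i 0).cross s 0).2.2.2.2.2).1
  have hdirB : ∀ j t, IsDir (a (hv j) t) := by
    intro j t
    exact hD _ _ (ne_zero_of_cr ((Q 0 j).cross 0 t).2.2.2.2.2).2
  refine core (A := fun i => q (hu i)) (B := fun j => q (hv j))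
    (α := fun i s => a (hu i) (ar (su i) s)) (β := fun j t => a (hv j) (ar (sv j) t))
    (x := fun i j s t => x i j (ar (su i) s) (ar (sv j) t))
    (y := fun i j s t => y i j (ar (su i) s) (ar (sv j) t)) ?_ ?_ ?_ ?_ ?_ ?_ ?_ ?_ ?_
  · intro i j s t
    have := (Q i j).cross (ar (su i) s) (ar (sv j) t)
    exact ⟨this.1, this.2.2.1⟩
  · intro i j s t
    exact ((Q i j).cross (ar (su i) s) (ar (sv j) t)).2.2.2.2.1
  · intro i j s t
    exact ((Q i j).cross (ar (su i) s) (ar (sv j) t)).2.2.2.2.2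
  · intro i j s
    have hs : s = 0 ∨ s = 1 := by omega
    rcases hs with rfl | rfl
    · have := OX i j 2 j 0 (gapX i j 0 2 (by decide))
      simp only [show ls 2 = 0 from rfl, show ls 0 = 0 from rfl, show lt 2 = 1 from rfl,
        show lt 0 = 0 from rfl, C0] at this
      exact neg_lt_neg_iff.mp this
    · have := OX i j 4 j 6 (gapX i j 4 6 (by decide))
      simp only [show ls 4 = 1 from rfl, show ls 6 = 1 from rfl, show lt 4 = 0 from rfl,
        show lt 6 = 1 from rfl, C1] at this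
      exact this
  · intro i j t
    have ht : t = 0 ∨ t = 1 := by omega
    rcases ht with rfl | rfl
    · have := OY j i 4 i 0 (gapY j i 0 2 (by decide))
      simp only [show ls 4 = 1 from rfl, show ls 0 = 0 from rfl, show lt 4 = 0 from rfl,
        show lt 0 = 0 from rfl, C0] at this
      exact neg_lt_neg_iff.mp this
    · have := OY j i 2 i 6 (gapY j i 4 6 (by decide))
      simp only [show ls 2 = 0 from rfl, show ls 6 = 1 from rfl, show lt 2 = 1 from rfl,
        show lt 6 = 1 from rfl, C1] at this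
      exact this
  · have := OY 1 0 6 1 2 hl.Y5
    simp only [show ls 6 = 1 from rfl, show ls 2 = 0 from rfl, show lt 6 = 1 from rfl,
      show lt 2 = 1 from rfl, C1] at this
    exact this
  · have := OX 1 1 0 0 2 hl.X5
    simp only [show ls 0 = 0 from rfl, show ls 2 = 0 from rfl, show lt 0 = 0 from rfl,
      show lt 2 = 1 from rfl, C0] at this
    exact neg_lt_neg_iff.mp this
  · intro i s; exact hdirA i _
  · intro j t; exact hdirB j _

end Pool.Agent.Bend
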