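import Pool.Agent.Lib.MP_4b3eba_co.K28

/-! The order of the corners along a hub is forced by the links. -/

namespace Pool.Agent.Bend

variable {V : Type*} {q : V → Pt} {a : V → Fin 2 → Pt}

theorem Corner.symm {A α B β : Pt} {w : V} {x y l m : ℝ} (h : Corner q a A α B β w x y l m) :
    Corner q a B β A α w y x m l := by
  obtain ⟨i, i', hii, hl, hm, e, f⟩ := h
  exact ⟨i', i, hii.symm, hm, hl, f, e⟩

/-- a corner `w` between the hub `h` (arm `t`, position `y`) and another hub `o` -/
def HC (q : V → Pt) (a : V → Fin 2 → Pt) (h o w : V) (t : Fin 2) (y m : ℝ) : Prop :=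
  0 < y ∧ ∃ (s : Fin 2) (x l : ℝ), Corner q a (q o) (a o s) (q h) (a h t) w x y l m ∧
    ∀ t', ∃ x' y' : ℝ, 0 < x' ∧ x' < 1 ∧ q o + x' • a o s = q h + y' • a h t' ∧
      cr (a o s) (a h t') ≠ 0

def lo (y m : ℝ) : ℝ := max 0 (min y (y + m))
def hi (y m : ℝ) : ℝ := max y (y + m)

theorem lo_lt_hi {y m : ℝ} (hy : 0 < y) (hm : m ≠ 0) : lo y m < hi y m := by
  unfold lo hi
  rcases lt_or_gt_of_ne hm with h | h
  · rw [max_eq_left (by linarith : y + m ≤ y)]
    exact max_lt hy (lt_of_le_of_lt (min_le_right _ _) (by linarith))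
  · rw [max_eq_right (by linarith : y ≤ y + m)]
    exact max_lt (by linarith) (lt_of_le_of_lt (min_le_left _ _) (by linarith))

theorem lo_le {y m : ℝ} (hy : 0 < y) : lo y m ≤ y := max_le hy.le (min_le_left _ _)
theorem le_hi {y m : ℝ} : y ≤ hi y m := le_max_left _ _
theorem lo_nonneg (y m : ℝ) : 0 ≤ lo y m := le_max_left _ _
theorem hi_pos {y m : ℝ} (hy : 0 < y) : 0 < hi y m := lt_of_lt_of_le hy (le_max_left _ _)

/-- left and right end of the trace of a corner, seen from the arm `t0` -/
def Lf (t0 t : Fin 2) (y m : ℝ) : ℝ := if t = t0 then lo y m else - hi y m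
def Rt (t0 t : Fin 2) (y m : ℝ) : ℝ := if t = t0 then hi y m else - lo y m
def Cc (t0 t : Fin 2) (y : ℝ) : ℝ := if t = t0 then y else - y

theorem Lf_lt_Rt (t0 t : Fin 2) {y m : ℝ} (hy : 0 < y) (hm : m ≠ 0) :
    Lf t0 t y m < Rt t0 t y m := by
  have := lo_lt_hi hy hm
  unfold Lf Rt
  split_ifs
  · exact this
  · linarith

theorem Cc_mem (t0 t : Fin 2) {y m : ℝ} (hy : 0 < y) :
    Lf t0 t y m ≤ Cc t0 t y ∧ Cc t0 t y ≤ Rt t0 t y m := by
  have h1 := lo_le (m := m) hy
  have h2 := le_hi (y := y) (m := m)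
  unfold Lf Rt Cc
  split_ifs
  · exact ⟨h1, h2⟩
  · constructor <;> linarith

theorem fin2_other {t0 t1 t : Fin 2} (h : t0 ≠ t1) (ht : t ≠ t0) : t = t1 := by omega

theorem swap_Lf {t0 t1 : Fin 2} (h : t0 ≠ t1) (t : Fin 2) (y m : ℝ) :
    Lf t1 t y m = - Rt t0 t y m := by
  unfold Lf Rt
  by_cases ht : t = t0
  · subst ht; rw [if_neg h, if_pos rfl]
  · rw [if_pos (fin2_other h ht), if_neg ht, neg_neg]

theorem swap_Rt {t0 t1 : Fin 2} (h : t0 ≠ t1) (t : Fin 2) (y m : ℝ) :
    Rt t1 t y m = - Lf t0 t y m := by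
  unfold Lf Rt
  by_cases ht : t = t0
  · subst ht; rw [if_neg h, if_pos rfl]
  · rw [if_pos (fin2_other h ht), if_neg ht, neg_neg]

theorem swap_Cc {t0 t1 : Fin 2} (h : t0 ≠ t1) (t : Fin 2) (y : ℝ) :
    Cc t1 t y = - Cc t0 t y := by
  unfold Cc
  by_cases ht : t = t0
  · subst ht; rw [if_neg h, if_pos rfl]
  · rw [if_pos (fin2_other h ht), if_neg ht, neg_neg]

theorem cr_fin {β : Fin 2 → Pt} (h : cr (β 0) (β 1) ≠ 0) {t t' : Fin 2} (ht : t ≠ t') :
    cr (β t) (β t') ≠ 0 := by
  fin_cases t <;> fin_cases t' <;> simp at ht ⊢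
  · exact h
  · rw [cr_comm]; exact neg_ne_zero.mpr h

/-- two non-adjacent corners of a hub have disjoint traces -/
theorem disj_corner {h o w o' w' : V} {t t' : Fin 2} {y m y' m' : ℝ} (t0 : Fin 2)
    (hβ : cr (a h 0) (a h 1) ≠ 0)
    (hc : HC q a h o w t y m) (hc' : HC q a h o' w' t' y' m') (hn : ¬ Adj q a w w') :
    Rt t0 t y m ≤ Lf t0 t' y' m' ∨ Rt t0 t' y' m' ≤ Lf t0 t y m := by
  obtain ⟨hy, s, x, l, ⟨i, i', hii, hl, hm, e, f⟩, _⟩ := hc
  obtain ⟨hy', s', x', l', ⟨j, j', hjj, hl', hm', e', f'⟩, _⟩ := hc'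
  by_cases htt : t = t'
  · subst htt
    have hβt : a h t ≠ 0 := by
      fin_cases t
      · exact (ne_zero_of_cr hβ).1
      · exact (ne_zero_of_cr hβ).2
    have hno : ¬ (min y (y + m) < max y' (y' + m') ∧ min y' (y' + m') < max y (y + m)) := by
      rw [← ov_along_iff hβt hm hm' f f']
      exact fun h => hn ⟨_, _, h⟩
    rw [not_and_or, not_lt, not_lt] at hno
    have key : hi y' m' ≤ lo y m ∨ hi y m ≤ lo y' m' := by
      rcases hno with h1 | h1
      · left; exact h1.trans (le_max_right _ _)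
      · right; exact h1.trans (le_max_right _ _)
    unfold Rt Lf
    by_cases ht0 : t = t0
    · simp only [if_pos ht0]
      exact key.symm
    · simp only [if_neg ht0]
      rcases key with h1 | h1
      · left; linarith
      · right; linarith
  · unfold Rt Lf
    have h1 := lo_nonneg y m
    have h2 := lo_nonneg y' m'
    by_cases ht0 : t = t0
    · right
      rw [if_pos ht0, if_neg (fun h => htt (ht0.trans h.symm))]
      linarith
    · left
      rw [if_neg ht0, if_pos (by omega)]
      linarith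

/-- the trace of a link -/
theorem link_trace {h z : V} (hβ : cr (a h 0) (a h 1) ≠ 0) (hz : Adj q a z h) :
    ∃ t0 : Fin 2, ∃ M N : ℝ, ∀ (o w : V) (t : Fin 2) (y m : ℝ), HC q a h o w t y m →
      ¬ Adj q a z o →
      (Adj q a z w → M ≤ Rt t0 t y m ∧ Lf t0 t y m ≤ N) ∧
      (¬ Adj q a z w → N ≤ Lf t0 t y m ∨ Rt t0 t y m ≤ M) := by
  obtain ⟨k, t0, hkt⟩ := hz
  obtain ⟨b, l, hl, hal, hb1, hb2⟩ := hkt.data
  have hβ0 : a h t0 ≠ 0 := hkt.ne_zero.2
  -- an arm of `z` overlapping a corner lies on the line of the hub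
  have red : ∀ (o w : V) (t : Fin 2) (y m : ℝ), HC q a h o w t y m → ¬ Adj q a z o →
      Adj q a z w → ∃ (κ : Fin 2) (m2 l2 : ℝ), l2 ≠ 0 ∧ Along (q h) (a h t) (q z) (a z κ) m2 l2 ∧
        min m2 (m2 + l2) < hi y m ∧ min y (y + m) < max m2 (m2 + l2) := by
    intro o w t y m hc hzo hzw
    obtain ⟨hy, s, x, lw, ⟨i, i', hii, hlw, hm, e, f⟩, hcross⟩ := hc
    obtain ⟨κ, ι, hov⟩ := hzw
    by_cases hι : ι = i
    · exfalso
      subst hι
      obtain ⟨m1, l1, hl1, hal1⟩ := hov.symm.along
      have h2 := e.trans hal1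
      have hl2 : l1 * lw ≠ 0 := mul_ne_zero hl1 hlw
      obtain ⟨x', y', hx0, hx1, hxy, hcr⟩ := hcross t0
      obtain ⟨h3, h4⟩ := cross_unique hcr (h2.1.symm.trans hal.1) hxy
      rw [h3] at h2
      apply hzo
      refine ⟨κ, s, (ov_along_iff (ne_zero_of_cr hcr).1 hl2 one_ne_zero h2
        (along_base _ _)).mpr ?_⟩
      rw [zero_add, min_eq_left zero_le_one, max_eq_right zero_le_one]
      exact ⟨lt_of_le_of_lt (min_le_left _ _) hx1, lt_of_lt_of_le hx0 (le_max_left _ _)⟩
    · have hι' : ι = i' := fin2_other hii hι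
      subst hι'
      obtain ⟨m1, l1, hl1, hal1⟩ := hov.symm.along
      have h2 := f.trans hal1
      have hl2 : l1 * m ≠ 0 := mul_ne_zero hl1 hm
      have hβt : a h t ≠ 0 := by
        fin_cases t
        · exact (ne_zero_of_cr hβ).1
        · exact (ne_zero_of_cr hβ).2
      exact ⟨κ, _, _, hl2, h2, (ov_along_iff hβt hl2 hm h2 f).mp hov⟩
  obtain ⟨k', hk'⟩ : ∃ k' : Fin 2, k ≠ k' := ⟨k + 1, by fin_cases k <;> decide⟩
  obtain ⟨t1, ht1⟩ : ∃ t1 : Fin 2, t0 ≠ t1 := ⟨t0 + 1, by fin_cases t0 <;> decide⟩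
  by_cases hI : ∃ b' l' : ℝ, l' ≠ 0 ∧ Along (q h) (a h t1) (q z) (a z k') b' l'
  · -- both arms of the hub are used: the bend of `z` is the bend of the hub
    obtain ⟨b', l', hl', hal'⟩ := hI
    obtain ⟨hb0, hb0'⟩ : b = 0 ∧ b' = 0 := by
      have h1 : q h + (0 : ℝ) • a h t0 = q h + (0 : ℝ) • a h t1 := by simp
      exact cross_unique (cr_fin hβ ht1) (hal.1.symm.trans hal'.1) h1
    subst hb0 hb0'
    simp only [zero_add] at hb1 hb2
    have hlpos : 0 < l := by
      by_contra hcon
      rw [max_eq_left (not_lt.mp hcon)] at hb2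
      exact lt_irrefl _ hb2
    -- description of the arms of `z` on the lines of the hub
    have desc : ∀ (κ t : Fin 2) (m2 l2 : ℝ), l2 ≠ 0 → Along (q h) (a h t) (q z) (a z κ) m2 l2 →
        m2 = 0 ∧ ((t = t0 ∧ l2 = l) ∨ (t = t1 ∧ l2 = l')) := by
      intro κ t m2 l2 hl2 h2
      by_cases hκ : κ = k
      · subst hκ
        have htt : t = t0 := by
          by_contra hne
          exact cr_fin hβ hne (cr_of_along hl2 hl h2 hal)
        subst htt
        refine ⟨line_inj hβ0 (h2.1.symm.trans hal.1), Or.inl ⟨rfl, ?_⟩⟩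
        have h3 : q h + l2 • a h t = q h + l • a h t := by rw [← h2.2, ← hal.2]
        exact line_inj hβ0 h3
      · have hκ' : κ = k' := fin2_other hk' hκ
        subst hκ'
        have htt : t = t1 := by
          by_contra hne
          exact cr_fin hβ hne (cr_of_along hl2 hl' h2 hal')
        subst htt
        have hβ1 : a h t ≠ 0 := (ne_zero_of_cr (cr_fin hβ ht1)).2
        refine ⟨line_inj hβ1 (h2.1.symm.trans hal'.1), Or.inr ⟨rfl, ?_⟩⟩
        have h3 : q h + l2 • a h t = q h + l' • a h t := by rw [← h2.2, ← hal'.2]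
        exact line_inj hβ1 h3
    refine ⟨t0, - max 0 l', l, ?_⟩
    intro o w t y m hc hzo
    have hy := hc.1
    have hhi := hi_pos (m := m) hy
    constructor
    · intro hzw
      obtain ⟨κ, m2, l2, hl2, h2, h3, h4⟩ := red o w t y m hc hzo hzw
      obtain ⟨h5, h6⟩ := desc κ t m2 l2 hl2 h2
      subst h5
      rw [zero_add] at h3 h4
      rcases h6 with ⟨rfl, rfl⟩ | ⟨rfl, rfl⟩
      · unfold Rt Lf
        rw [if_pos rfl, if_pos rfl]
        constructor
        · have : 0 ≤ max 0 l' := le_max_left _ _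
          linarith
        · rw [max_eq_right hlpos.le] at h4
          exact max_le hlpos.le h4.le
      · unfold Rt Lf
        rw [if_neg ht1.symm, if_neg ht1.symm]
        constructor
        · apply neg_le_neg
          exact max_le (le_max_left _ _) h4.le
        · linarith
    · intro hzw
      by_contra hcon
      rw [not_or, not_le, not_le] at hcon
      obtain ⟨h5, h6⟩ := hcon
      apply hzw
      obtain ⟨_, s, x, lw, ⟨i, i', hii, hlw, hm, e, f⟩, hcross⟩ := hc
      by_cases htt : t = t0
      · subst htt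
        unfold Lf at h5
        rw [if_pos rfl] at h5
        refine ⟨k, i', (ov_along_iff hβ0 hl hm hal f).mpr ?_⟩
        rw [zero_add, min_eq_left hlpos.le, max_eq_right hlpos.le]
        exact ⟨hhi, lt_of_le_of_lt (le_max_right _ _) h5⟩
      · have htt1 : t = t1 := fin2_other ht1 htt
        subst htt1
        unfold Rt at h6
        rw [if_neg htt] at h6
        have h7 : lo y m < max 0 l' := by linarith
        have hl'pos : 0 < l' := by
          by_contra hc
          rw [max_eq_left (not_lt.mp hc)] at h7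
          exact absurd (lo_nonneg y m) (not_le.mpr h7)
        rw [max_eq_right hl'pos.le] at h7
        have hβ1 : a h t ≠ 0 := (ne_zero_of_cr (cr_fin hβ ht1)).2
        refine ⟨k', i', (ov_along_iff hβ1 hl' hm hal' f).mpr ?_⟩
        rw [zero_add, min_eq_left hl'pos.le, max_eq_right hl'pos.le]
        exact ⟨hhi, lt_of_le_of_lt (le_max_right _ _) h7⟩
  · -- only the line of the arm `t0` is used
    obtain ⟨k2, l2, hal2, desc⟩ : ∃ (k2 : Fin 2) (l2 : ℝ),
        Along (q h) (a h t0) (q z) (a z k2) b l2 ∧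
        ∀ (κ t : Fin 2) (m3 l3 : ℝ), l3 ≠ 0 → Along (q h) (a h t) (q z) (a z κ) m3 l3 →
          t = t0 ∧ m3 = b ∧ (l3 = l ∨ l3 = l2) := by
      by_cases hII : ∃ l' : ℝ, Along (q h) (a h t0) (q z) (a z k') b l'
      · obtain ⟨l', hal'⟩ := hII
        refine ⟨k', l', hal', ?_⟩
        intro κ t m3 l3 hl3 h3
        have htt : t = t0 := by
          by_contra hne
          have htt1 : t = t1 := fin2_other ht1 hne
          subst htt1
          by_cases hκ : κ = k
          · subst hκ
            exact cr_fin hβ ht1 (cr_of_along hl hl3 hal h3)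
          · have hκ' : κ = k' := fin2_other hk' hκ
            subst hκ'
            exact hI ⟨m3, l3, hl3, h3⟩
        subst htt
        have hm3 : m3 = b := line_inj hβ0 (h3.1.symm.trans hal.1)
        refine ⟨rfl, hm3, ?_⟩
        by_cases hκ : κ = k
        · subst hκ
          left
          have h4 : q h + l3 • a h t = q h + l • a h t := by rw [← h3.2, ← hal.2]
          exact line_inj hβ0 h4
        · have hκ' : κ = k' := fin2_other hk' hκ
          subst hκ'
          right
          have h4 : q h + l3 • a h t = q h + l' • a h t := by rw [← h3.2, ← hal'.2]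
          exact line_inj hβ0 h4
      · refine ⟨k, l, hal, ?_⟩
        intro κ t m3 l3 hl3 h3
        have hκ : κ = k := by
          by_contra hne
          have hκ' : κ = k' := fin2_other hk' hne
          subst hκ'
          by_cases htt : t = t0
          · subst htt
            have hm3 : m3 = b := line_inj hβ0 (h3.1.symm.trans hal.1)
            subst hm3
            exact hII ⟨l3, h3⟩
          · have htt1 : t = t1 := fin2_other ht1 htt
            subst htt1
            exact hI ⟨m3, l3, hl3, h3⟩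
        subst hκ
        have htt : t = t0 := by
          by_contra hne
          exact cr_fin hβ hne (cr_of_along hl3 hl h3 hal)
        subst htt
        refine ⟨rfl, line_inj hβ0 (h3.1.symm.trans hal.1), Or.inl ?_⟩
        have h4 : q h + l3 • a h t = q h + l • a h t := by rw [← h3.2, ← hal.2]
        exact line_inj hβ0 h4
    set LO := min (min b (b + l)) (min b (b + l2)) with hLO
    set HI := max (max b (b + l)) (max b (b + l2)) with hHI
    have hHIpos : 0 < HI := lt_of_lt_of_le hb2 (le_max_left _ _)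
    refine ⟨t0, max 0 LO, HI, ?_⟩
    intro o w t y m hc hzo
    have hy := hc.1
    have hhi := hi_pos (m := m) hy
    constructor
    · intro hzw
      obtain ⟨κ, m3, l3, hl3, h2, h3, h4⟩ := red o w t y m hc hzo hzw
      obtain ⟨rfl, rfl, h7⟩ := desc κ t m3 l3 hl3 h2
      have h8 : LO ≤ min m3 (m3 + l3) := by
        rcases h7 with rfl | rfl
        · exact min_le_left _ _
        · exact min_le_right _ _
      have h9 : max m3 (m3 + l3) ≤ HI := by
        rcases h7 with rfl | rfl
        · exact le_max_left _ _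
        · exact le_max_right _ _
      unfold Rt Lf
      rw [if_pos rfl, if_pos rfl]
      exact ⟨max_le hhi.le (h8.trans h3.le), max_le hHIpos.le (h4.le.trans h9)⟩
    · intro hzw
      by_contra hcon
      rw [not_or, not_le, not_le] at hcon
      obtain ⟨h5, h6⟩ := hcon
      apply hzw
      obtain ⟨_, s, x, lw, ⟨i, i', hii, hlw, hm, e, f⟩, hcross⟩ := hc
      by_cases htt : t = t0
      · subst htt
        unfold Lf at h5
        unfold Rt at h6
        rw [if_pos rfl] at h5 h6
        have hlh := lo_lt_hi hy hm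
        -- choose the extreme points of the hull of `z`
        have hb3 : min b (b + l) ≤ max b (b + l) := min_le_max
        have hb4 : min b (b + l2) ≤ max b (b + l2) := min_le_max
        refine adj_of_line hβ0 (B := q h) (lo := max (lo y m) (max 0 LO)) (hi := min (hi y m) HI)
          ?_ ?_ ?_
        · apply max_lt
          · exact lt_min hlh h5
          · apply lt_min h6
            apply max_lt hHIpos
            exact lt_of_le_of_lt (min_le_left _ _)
              (lt_of_lt_of_le (by
                rcases lt_or_gt_of_ne hl with h0 | h0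
                · exact lt_of_le_of_lt (min_le_right _ _)
                    (lt_of_lt_of_le (by linarith) (le_max_left _ _))
                · exact lt_of_le_of_lt (min_le_left _ _)
                    (lt_of_lt_of_le (by linarith) (le_max_right _ _))) (le_max_left _ _))
        · intro ξ h7 h8
          have h9 : LO ≤ ξ := (le_max_right _ _).trans ((le_max_right _ _).trans h7)
          have h10 : ξ ≤ HI := h8.trans (min_le_right _ _)
          rcases le_total ξ b with h11 | h11
          · -- left of the bend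
            rw [hLO] at h9
            rcases min_le_iff.mp h9 with h12 | h12
            · exact mem_Pl k (mem_sg_along hal ξ h12 (h11.trans (le_max_left _ _)))
            · exact mem_Pl k2 (mem_sg_along hal2 ξ h12 (h11.trans (le_max_left _ _)))
          · rw [hHI] at h10
            rcases le_max_iff.mp h10 with h12 | h12
            · exact mem_Pl k (mem_sg_along hal ξ ((min_le_left _ _).trans h11) h12)
            · exact mem_Pl k2 (mem_sg_along hal2 ξ ((min_le_left _ _).trans h11) h12)
        · intro ξ h7 h8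
          have h9 : min y (y + m) ≤ ξ := (le_max_right _ _).trans ((le_max_left _ _).trans h7)
          have h10 : ξ ≤ max y (y + m) := h8.trans (min_le_left _ _)
          exact mem_Pl i' (mem_sg_along f ξ h9 h10)
      · unfold Rt at h6
        rw [if_neg htt] at h6
        have h7 := lo_nonneg y m
        have h8 : (0 : ℝ) ≤ max 0 LO := le_max_left _ _
        linarith

/-- a linear order forced by links -/
theorem order_up (n : ℕ) (L R : ℕ → ℝ) (hlr : ∀ k < n, L k < R k)
    (hdis : ∀ k < n, ∀ k' < n, k ≠ k' → R k ≤ L k' ∨ R k' ≤ L k)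
    (hlink : ∀ k, k + 1 < n → ∃ M N, (M ≤ R k ∧ L k ≤ N) ∧ (M ≤ R (k + 1) ∧ L (k + 1) ≤ N) ∧
      ∀ j < n, j ≠ k → j ≠ k + 1 → N ≤ L j ∨ R j ≤ M) (h01 : R 0 ≤ L 1) :
    ∀ k k', k < k' → k' < n → R k ≤ L k' := by
  have step : ∀ k, k + 1 < n → R k ≤ L (k + 1) := by
    intro k
    induction k with
    | zero => intro _; exact h01
    | succ k ih =>
      intro hk
      have h1 := ih (by omega)
      rcases hdis (k + 1) (by omega) (k + 1 + 1) hk (by omega) with h2 | h2
      · exact h2
      · exfalso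
        have hk1 := hlr (k + 1 + 1) hk
        have hk0 := hlr k (by omega)
        rcases hdis k (by omega) (k + 1 + 1) hk (by omega) with h3 | h3
        · obtain ⟨M, N, ⟨a1, a2⟩, ⟨b1, b2⟩, h4⟩ := hlink k (by omega)
          rcases h4 (k + 1 + 1) hk (by omega) (by omega) with h5 | h5
          · linarith
          · linarith
        · obtain ⟨M, N, ⟨a1, a2⟩, ⟨b1, b2⟩, h4⟩ := hlink (k + 1) hk
          rcases h4 k (by omega) (by omega) (by omega) with h5 | h5
          · linarith
          · linarith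
  intro k k' hkk' hk'
  induction k' with
  | zero => omega
  | succ k' ih =>
    rcases Nat.lt_succ_iff_lt_or_eq.mp hkk' with h1 | h1
    · have h2 := ih h1 (by omega)
      have h3 := hlr k' (by omega)
      have h4 := step k' hk'
      linarith
    · subst h1
      exact step k hk'

theorem order_both (n : ℕ) (hn : 2 ≤ n) (L R : ℕ → ℝ) (hlr : ∀ k < n, L k < R k)
    (hdis : ∀ k < n, ∀ k' < n, k ≠ k' → R k ≤ L k' ∨ R k' ≤ L k)
    (hlink : ∀ k, k + 1 < n → ∃ M N, (M ≤ R k ∧ L k ≤ N) ∧ (M ≤ R (k + 1) ∧ L (k + 1) ≤ N) ∧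
      ∀ j < n, j ≠ k → j ≠ k + 1 → N ≤ L j ∨ R j ≤ M) :
    (∀ k k', k < k' → k' < n → R k ≤ L k') ∨ (∀ k k', k < k' → k' < n → R k' ≤ L k) := by
  rcases hdis 0 (by omega) 1 (by omega) (by omega) with h | h
  · exact Or.inl (order_up n L R hlr hdis hlink h)
  · right
    intro k k' h1 h2
    have := order_up n (fun k => - R k) (fun k => - L k) (fun k hk => neg_lt_neg (hlr k hk))
      (fun k hk k' hk' hne => by
        rcases hdis k hk k' hk' hne with h3 | h3
        · right; exact neg_le_neg h3
        · left; exact neg_le_neg h3)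
      (fun k hk => by
        obtain ⟨M, N, ⟨a1, a2⟩, ⟨b1, b2⟩, h4⟩ := hlink k hk
        refine ⟨-N, -M, ⟨neg_le_neg a2, neg_le_neg a1⟩, ⟨neg_le_neg b2, neg_le_neg b1⟩, ?_⟩
        intro j hj hjk hjk'
        rcases h4 j hj hjk hjk' with h5 | h5
        · right; exact neg_le_neg h5
        · left; exact neg_le_neg h5) (neg_le_neg h) k k' h1 h2
    exact neg_le_neg_iff.mp this

end Pool.Agent.Bend
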