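import Mathlib

/-! Segments in the plane and their infinite intersections. -/

namespace Pool.Agent.Bend

abbrev Pt := ℝ × ℝ

/-- determinant of two vectors -/
def cr (v w : Pt) : ℝ := v.1 * w.2 - v.2 * w.1

/-- the segment from `q` to `q + a` -/
def sg (q a : Pt) : Set Pt := {x | ∃ t : ℝ, 0 ≤ t ∧ t ≤ 1 ∧ x = q + t • a}

theorem sg_eq (q a : Pt) : sg q a = segment ℝ q (q + a) := by
  ext x
  rw [segment_eq_image']
  constructor
  · rintro ⟨t, h0, h1, rfl⟩
    exact ⟨t, ⟨h0, h1⟩, by simp⟩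
  · rintro ⟨t, ⟨h0, h1⟩, rfl⟩
    exact ⟨t, h0, h1, by simp⟩

theorem sg_convex (q a : Pt) : Convex ℝ (sg q a) := by
  rw [sg_eq]; exact convex_segment _ _

/-- two segments overlap if they share two different points -/
def Ov (q a q' a' : Pt) : Prop := ∃ x y : Pt, x ≠ y ∧ x ∈ sg q a ∧ y ∈ sg q a ∧ x ∈ sg q' a' ∧
  y ∈ sg q' a'

theorem infinite_of_two {S T : Set Pt} (hS : Convex ℝ S) (hT : Convex ℝ T) {x y : Pt} (h : x ≠ y)
    (h1 : x ∈ S) (h2 : y ∈ S) (h3 : x ∈ T) (h4 : y ∈ T) : (S ∩ T).Infinite := by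
  have hsub : (fun t : ℝ => x + t • (y - x)) '' Set.Icc (0 : ℝ) 1 ⊆ S ∩ T := by
    have e := segment_eq_image' ℝ x y
    rw [← e]
    exact Set.subset_inter (hS.segment_subset h1 h2) (hT.segment_subset h3 h4)
  refine Set.Infinite.mono hsub ?_
  refine Set.Infinite.image ?_ (Set.Icc_infinite zero_lt_one)
  intro s _ t _ hst
  have h5 : (s - t) • (y - x) = 0 := by
    have : x + s • (y - x) = x + t • (y - x) := hst
    rw [sub_smul, sub_eq_zero]
    exact add_left_cancel this
  rcases smul_eq_zero.mp h5 with h6 | h6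
  · linarith
  · exact absurd (sub_eq_zero.mp h6).symm h

theorem Ov.infinite {q a q' a' : Pt} (h : Ov q a q' a') : (sg q a ∩ sg q' a').Infinite := by
  obtain ⟨x, y, hne, h1, h2, h3, h4⟩ := h
  exact infinite_of_two (sg_convex _ _) (sg_convex _ _) hne h1 h2 h3 h4

theorem ov_of_infinite {q a q' a' : Pt} (h : (sg q a ∩ sg q' a').Infinite) : Ov q a q' a' := by
  obtain ⟨x, hx, y, hy, hne⟩ := h.nontrivial
  exact ⟨x, y, hne, hx.1, hy.1, hx.2, hy.2⟩

theorem ov_iff_infinite {q a q' a' : Pt} : Ov q a q' a' ↔ (sg q a ∩ sg q' a').Infinite :=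
  ⟨Ov.infinite, ov_of_infinite⟩

theorem Ov.symm {q a q' a' : Pt} (h : Ov q a q' a') : Ov q' a' q a := by
  obtain ⟨x, y, hne, h1, h2, h3, h4⟩ := h
  exact ⟨x, y, hne, h3, h4, h1, h2⟩

/-- the segment from `q` to `q + a` lies on the line through `B` with direction `β`, with
coordinates `m` and `m + l` of its endpoints -/
def Along (B β q a : Pt) (m l : ℝ) : Prop := q = B + m • β ∧ a = l • β

theorem Ov.ne_zero {q a q' a' : Pt} (h : Ov q a q' a') : a ≠ 0 ∧ a' ≠ 0 := by
  obtain ⟨x, y, hne, ⟨t, _, _, h1⟩, ⟨s, _, _, h2⟩, ⟨t', _, _, h3⟩, ⟨s', _, _, h4⟩⟩ := h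
  constructor
  · rintro rfl
    apply hne; rw [h1, h2]; simp
  · rintro rfl
    apply hne; rw [h3, h4]; simp

theorem Ov.along {q a q' a' : Pt} (h : Ov q a q' a') :
    ∃ m l : ℝ, l ≠ 0 ∧ Along q a q' a' m l := by
  have hz := h.ne_zero
  obtain ⟨x, y, hne, ⟨t, _, _, h1⟩, ⟨s, _, _, h2⟩, ⟨t', _, _, h3⟩, ⟨s', _, _, h4⟩⟩ := h
  have e : (s - t) • a = (s' - t') • a' := by
    have : y - x = y - x := rfl
    nth_rewrite 1 [h2, h1] at this
    rw [h4, h3] at this
    rw [sub_smul, sub_smul]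
    calc s • a - t • a = q + s • a - (q + t • a) := by abel
      _ = q' + s' • a' - (q' + t' • a') := this
      _ = _ := by abel
  have hs' : s' - t' ≠ 0 := by
    intro h0
    rw [h0, zero_smul] at e
    rcases smul_eq_zero.mp e with h5 | h5
    · apply hne; rw [h1, h2, sub_eq_zero.mp h5]
    · exact hz.1 h5
  have hs : s - t ≠ 0 := by
    intro h0
    rw [h0, zero_smul] at e
    rcases smul_eq_zero.mp e.symm with h5 | h5
    · exact hs' h5
    · exact hz.2 h5
  have ha : a' = ((s - t) / (s' - t')) • a := by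
    rw [div_eq_inv_mul, mul_smul, e, smul_smul, inv_mul_cancel₀ hs', one_smul]
  refine ⟨t - t' * ((s - t) / (s' - t')), (s - t) / (s' - t'), div_ne_zero hs hs', ?_, ha⟩
  have : q + t • a = q' + t' • a' := by rw [← h1, ← h3]
  rw [ha, smul_smul] at this
  rw [sub_smul]
  calc q' = q' + (t' * ((s - t) / (s' - t'))) • a - (t' * ((s - t) / (s' - t'))) • a := by abel
    _ = q + t • a - (t' * ((s - t) / (s' - t'))) • a := by rw [this]
    _ = _ := by abel

theorem Along.trans {B β q a q' a' : Pt} {m l m' l' : ℝ} (h : Along B β q a m l)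
    (h' : Along q a q' a' m' l') : Along B β q' a' (m + m' * l) (l' * l) := by
  obtain ⟨rfl, rfl⟩ := h
  obtain ⟨rfl, rfl⟩ := h'
  refine ⟨?_, ?_⟩
  · rw [smul_smul, add_smul]; abel
  · rw [smul_smul]

theorem Along.symm {q a q' a' : Pt} {m l : ℝ} (hl : l ≠ 0) (h : Along q a q' a' m l) :
    Along q' a' q a (-(m / l)) (1 / l) := by
  obtain ⟨rfl, rfl⟩ := h
  refine ⟨?_, ?_⟩
  · rw [smul_smul, neg_mul, div_mul_cancel₀ _ hl, neg_smul]; abel
  · rw [smul_smul, one_div, inv_mul_cancel₀ hl, one_smul]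

/-- points of a segment on a line -/
theorem mem_sg_along {B β q a : Pt} {m l : ℝ} (h : Along B β q a m l) (τ : ℝ)
    (h1 : min m (m + l) ≤ τ) (h2 : τ ≤ max m (m + l)) : B + τ • β ∈ sg q a := by
  obtain ⟨rfl, rfl⟩ := h
  by_cases hl : l = 0
  · subst hl
    simp only [add_zero, min_self, max_self] at h1 h2
    have : τ = m := le_antisymm h2 h1
    subst this
    exact ⟨0, le_refl _, zero_le_one, by simp⟩
  · refine ⟨(τ - m) / l, ?_, ?_, ?_⟩
    · rcases lt_or_gt_of_ne hl with h0 | h0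
      · rw [max_eq_left (by linarith)] at h2
        exact div_nonneg_of_nonpos (by linarith) h0.le
      · rw [min_eq_left (by linarith)] at h1
        exact div_nonneg (by linarith) h0.le
    · rcases lt_or_gt_of_ne hl with h0 | h0
      · rw [min_eq_right (by linarith)] at h1
        rw [div_le_one_of_neg h0]; linarith
      · rw [max_eq_right (by linarith)] at h2
        rw [div_le_one h0]; linarith
    · rw [smul_smul, div_mul_cancel₀ _ hl, sub_smul]; abel

theorem mem_sg_along' {B β q a : Pt} {m l : ℝ} (h : Along B β q a m l) {x : Pt}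
    (hx : x ∈ sg q a) : ∃ τ : ℝ, min m (m + l) ≤ τ ∧ τ ≤ max m (m + l) ∧ x = B + τ • β := by
  obtain ⟨rfl, rfl⟩ := h
  obtain ⟨t, h0, h1, rfl⟩ := hx
  refine ⟨m + t * l, ?_, ?_, ?_⟩
  · rcases le_or_gt 0 l with h | h
    · rw [min_eq_left (by linarith)]; nlinarith
    · rw [min_eq_right (by linarith)]; nlinarith
  · rcases le_or_gt 0 l with h | h
    · rw [max_eq_right (by linarith)]; nlinarith
    · rw [max_eq_left (by linarith)]; nlinarith
  · rw [smul_smul, add_smul]; abel

theorem line_inj {B β : Pt} (hβ : β ≠ 0) {s t : ℝ} (h : B + s • β = B + t • β) : s = t := by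
  have h1 := add_left_cancel h
  have : (s - t) • β = 0 := by rw [sub_smul, h1, sub_self]
  rcases smul_eq_zero.mp this with h2 | h2
  · linarith
  · exact absurd h2 hβ

theorem ov_along_iff {B β q a q' a' : Pt} {m l m' l' : ℝ} (hβ : β ≠ 0) (hl : l ≠ 0) (hl' : l' ≠ 0)
    (h : Along B β q a m l) (h' : Along B β q' a' m' l') :
    Ov q a q' a' ↔ min m (m + l) < max m' (m' + l') ∧ min m' (m' + l') < max m (m + l) := by
  have hm : min m (m + l) < max m (m + l) := by
    rcases lt_or_gt_of_ne hl with h0 | h0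
    · exact lt_of_le_of_lt (min_le_right _ _) (lt_of_lt_of_le (by linarith) (le_max_left _ _))
    · exact lt_of_le_of_lt (min_le_left _ _) (lt_of_lt_of_le (by linarith) (le_max_right _ _))
  have hm' : min m' (m' + l') < max m' (m' + l') := by
    rcases lt_or_gt_of_ne hl' with h0 | h0
    · exact lt_of_le_of_lt (min_le_right _ _) (lt_of_lt_of_le (by linarith) (le_max_left _ _))
    · exact lt_of_le_of_lt (min_le_left _ _) (lt_of_lt_of_le (by linarith) (le_max_right _ _))
  constructor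
  · rintro ⟨x, y, hne, h1, h2, h3, h4⟩
    obtain ⟨τ, a1, a2, a3⟩ := mem_sg_along' h h1
    obtain ⟨σ, b1, b2, b3⟩ := mem_sg_along' h h2
    obtain ⟨τ', c1, c2, c3⟩ := mem_sg_along' h' h3
    obtain ⟨σ', d1, d2, d3⟩ := mem_sg_along' h' h4
    have e1 : τ' = τ := line_inj hβ (c3.symm.trans a3)
    have e2 : σ' = σ := line_inj hβ (d3.symm.trans b3)
    have e3 : τ ≠ σ := by
      intro h0; apply hne; rw [a3, b3, h0]
    rw [e1] at c1 c2
    rw [e2] at d1 d2
    rcases lt_or_gt_of_ne e3 with h0 | h0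
    · constructor <;> linarith
    · constructor <;> linarith
  · rintro ⟨h1, h2⟩
    set lo := max (min m (m + l)) (min m' (m' + l')) with hlo
    set hi := min (max m (m + l)) (max m' (m' + l')) with hhi
    have hlt : lo < hi := by
      rw [hlo, hhi]
      exact max_lt (lt_min hm h1) (lt_min h2 hm')
    refine ⟨B + lo • β, B + hi • β, ?_, ?_, ?_, ?_, ?_⟩
    · intro h0
      exact absurd (line_inj hβ h0) (ne_of_lt hlt)
    · exact mem_sg_along h _ (le_max_left _ _) (hlt.le.trans (min_le_left _ _))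
    · exact mem_sg_along h _ ((le_max_left _ _).trans hlt.le) (min_le_left _ _)
    · exact mem_sg_along h' _ (le_max_right _ _) (hlt.le.trans (min_le_right _ _))
    · exact mem_sg_along h' _ ((le_max_right _ _).trans hlt.le) (min_le_right _ _)

theorem cr_smul_smul (s t : ℝ) (v w : Pt) : cr (s • v) (t • w) = s * t * cr v w := by
  simp only [cr, Prod.smul_fst, Prod.smul_snd, smul_eq_mul]; ring

theorem cr_self (v : Pt) : cr v v = 0 := by simp only [cr]; ring

theorem cr_comm (v w : Pt) : cr v w = - cr w v := by simp only [cr]; ring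

theorem cr_add_left (u v w : Pt) : cr (u + v) w = cr u w + cr v w := by
  simp only [cr, Prod.fst_add, Prod.snd_add]; ring

theorem cr_sub_left (u v w : Pt) : cr (u - v) w = cr u w - cr v w := by
  simp only [cr, Prod.fst_sub, Prod.snd_sub]; ring

theorem cr_add_right (u v w : Pt) : cr u (v + w) = cr u v + cr u w := by
  simp only [cr, Prod.fst_add, Prod.snd_add]; ring

theorem cr_sub_right (u v w : Pt) : cr u (v - w) = cr u v - cr u w := by
  simp only [cr, Prod.fst_sub, Prod.snd_sub]; ring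

theorem cr_smul_left (s : ℝ) (v w : Pt) : cr (s • v) w = s * cr v w := by
  simp only [cr, Prod.smul_fst, Prod.smul_snd, smul_eq_mul]; ring

theorem cr_smul_right (s : ℝ) (v w : Pt) : cr v (s • w) = s * cr v w := by
  simp only [cr, Prod.smul_fst, Prod.smul_snd, smul_eq_mul]; ring

theorem ne_zero_of_cr {v w : Pt} (h : cr v w ≠ 0) : v ≠ 0 ∧ w ≠ 0 := by
  constructor
  · rintro rfl; apply h; simp [cr]
  · rintro rfl; apply h; simp [cr]

/-- an arm cannot be along two non-parallel lines -/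
theorem cr_of_along {B β B' β' q a : Pt} {m l m' l' : ℝ} (hl : l ≠ 0) (hl' : l' ≠ 0)
    (h : Along B β q a m l) (h' : Along B' β' q a m' l') : cr β β' = 0 := by
  have h1 : cr a a = l * l' * cr β β' := by
    conv_lhs => rw [h.2]
    have := h'.2
    rw [h.2] at this
    rw [this]
    have e : cr (l • β) (l' • β') = l * l' * cr β β' := cr_smul_smul _ _ _ _
    rw [← this, ← e, ← this]
  rw [cr_self] at h1
  rcases mul_eq_zero.mp h1.symm with h2 | h2
  · exact absurd h2 (mul_ne_zero hl hl')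
  · exact h2

end Pool.Agent.Bend
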