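import Pool.Agent.Lib.MP_4b3eba_co.Neg

/-! Explicit integer coordinates and their intersections. -/

namespace Pool.Agent.Bend

abbrev ZP := ℤ × ℤ

/-- an integer point in the plane -/
def tc (p : ZP) : Pt := ((p.1 : ℝ), (p.2 : ℝ))

def dt (v w : Pt) : ℝ := v.1 * w.1 + v.2 * w.2

theorem dt_smul (s : ℝ) (v w : Pt) : dt v (s • w) = s * dt v w := by
  simp only [dt, Prod.smul_fst, Prod.smul_snd, smul_eq_mul]; ring

theorem dt_self_pos {v : Pt} (hv : v ≠ 0) : 0 < dt v v := by
  unfold dt
  by_cases h1 : v.1 = 0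
  · have h2 : v.2 ≠ 0 := fun h => hv (Prod.ext h1 h)
    have := mul_self_pos.mpr h2
    have := mul_self_nonneg v.1
    linarith
  · have := mul_self_pos.mpr h1
    have := mul_self_nonneg v.2
    linarith

theorem ov_crit {q v q' w : Pt} (hv : v ≠ 0) (hw : w ≠ 0) :
    Ov q v q' w ↔ cr v w = 0 ∧ cr v (q' - q) = 0 ∧
      (dt v (q' - q) < dt v v ∨ dt v (q' + w - q) < dt v v) ∧
      (0 < dt v (q' - q) ∨ 0 < dt v (q' + w - q)) := by
  have hN := dt_self_pos hv
  have key : ∀ m l : ℝ, l ≠ 0 → Along q v q' w m l →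
      (Ov q v q' w ↔ (dt v (q' - q) < dt v v ∨ dt v (q' + w - q) < dt v v) ∧
      (0 < dt v (q' - q) ∨ 0 < dt v (q' + w - q))) := by
    intro m l hl hal
    have e1 : dt v (q' - q) = m * dt v v := by
      rw [hal.1, add_sub_cancel_left, dt_smul]
    have e2 : dt v (q' + w - q) = (m + l) * dt v v := by
      have : q' + w - q = (m + l) • v := by
        rw [hal.1, hal.2, add_smul]; abel
      rw [this, dt_smul]
    rw [e1, e2, ov_along_iff hv one_ne_zero hl (along_base q v) hal, zero_add,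
      min_eq_left zero_le_one, max_eq_right zero_le_one, lt_max_iff, min_lt_iff]
    have f1 : ∀ z : ℝ, z * dt v v < dt v v ↔ z < 1 := by
      intro z
      constructor
      · intro h
        by_contra hc
        have := mul_le_mul_of_nonneg_right (not_lt.mp hc) hN.le
        linarith
      · intro h
        have := mul_lt_mul_of_pos_right h hN
        linarith
    have f2 : ∀ z : ℝ, 0 < z * dt v v ↔ 0 < z := by
      intro z
      constructor
      · intro h
        exact (pos_iff_pos_of_mul_pos h).mpr hN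
      · intro h
        exact mul_pos h hN
    rw [f1, f1, f2, f2]
    exact and_comm
  constructor
  · intro h
    obtain ⟨m, l, hl, hal⟩ := h.along
    refine ⟨?_, ?_, (key m l hl hal).mp h⟩
    · rw [hal.2, cr_smul_right, cr_self, mul_zero]
    · rw [hal.1, add_sub_cancel_left, cr_smul_right, cr_self, mul_zero]
  · rintro ⟨h1, h2, h3⟩
    obtain ⟨l, hl⟩ := smul_of_cr h1 hv
    obtain ⟨m, hm⟩ := smul_of_cr h2 hv
    have hl0 : l ≠ 0 := by
      rintro rfl; apply hw; rw [hl, zero_smul]
    have hal : Along q v q' w m l := ⟨by rw [← hm]; abel, hl⟩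
    exact (key m l hl0 hal).mpr h3

/-- overlap of two integer segments -/
def ovI (s t : ZP × ZP) : Bool :=
  decide ((s.2.1 - s.1.1) * (t.2.2 - t.1.2) = (s.2.2 - s.1.2) * (t.2.1 - t.1.1)) &&
  decide ((s.2.1 - s.1.1) * (t.1.2 - s.1.2) = (s.2.2 - s.1.2) * (t.1.1 - s.1.1)) &&
  (decide ((s.2.1 - s.1.1) * (t.1.1 - s.1.1) + (s.2.2 - s.1.2) * (t.1.2 - s.1.2) <
      (s.2.1 - s.1.1) * (s.2.1 - s.1.1) + (s.2.2 - s.1.2) * (s.2.2 - s.1.2)) ||
   decide ((s.2.1 - s.1.1) * (t.2.1 - s.1.1) + (s.2.2 - s.1.2) * (t.2.2 - s.1.2) <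
      (s.2.1 - s.1.1) * (s.2.1 - s.1.1) + (s.2.2 - s.1.2) * (s.2.2 - s.1.2))) &&
  (decide (0 < (s.2.1 - s.1.1) * (t.1.1 - s.1.1) + (s.2.2 - s.1.2) * (t.1.2 - s.1.2)) ||
   decide (0 < (s.2.1 - s.1.1) * (t.2.1 - s.1.1) + (s.2.2 - s.1.2) * (t.2.2 - s.1.2)))

theorem tc_sub_ne {a b : ZP} (h : a ≠ b) : tc b - tc a ≠ 0 := by
  intro h0
  apply h
  have h1 := congrArg Prod.fst h0
  have h2 := congrArg Prod.snd h0
  simp only [tc, Prod.fst_sub, Prod.snd_sub, Prod.fst_zero, Prod.snd_zero] at h1 h2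
  have h3 : (b.1 : ℝ) = (a.1 : ℝ) := by linarith
  have h4 : (b.2 : ℝ) = (a.2 : ℝ) := by linarith
  exact Prod.ext (by exact_mod_cast h3.symm) (by exact_mod_cast h4.symm)

theorem ovI_iff {s t : ZP × ZP} (hs : s.1 ≠ s.2) (ht : t.1 ≠ t.2) :
    ovI s t = true ↔ (segment ℝ (tc s.1) (tc s.2) ∩ segment ℝ (tc t.1) (tc t.2)).Infinite := by
  have e1 : segment ℝ (tc s.1) (tc s.2) = sg (tc s.1) (tc s.2 - tc s.1) := by
    rw [sg_eq]; congr 1; abel
  have e2 : segment ℝ (tc t.1) (tc t.2) = sg (tc t.1) (tc t.2 - tc t.1) := by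
    rw [sg_eq]; congr 1; abel
  rw [e1, e2, ← ov_iff_infinite, ov_crit (tc_sub_ne hs) (tc_sub_ne ht)]
  have e3 : tc t.1 + (tc t.2 - tc t.1) - tc s.1 = tc t.2 - tc s.1 := by abel
  rw [e3]
  unfold ovI
  simp only [Bool.and_eq_true, Bool.or_eq_true, decide_eq_true_eq]
  have c1 : ((s.2.1 - s.1.1) * (t.2.2 - t.1.2) = (s.2.2 - s.1.2) * (t.2.1 - t.1.1)) ↔
      cr (tc s.2 - tc s.1) (tc t.2 - tc t.1) = 0 := by
    simp only [cr, tc, Prod.fst_sub, Prod.snd_sub]
    rw [sub_eq_zero]
    norm_cast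
  have c2 : ((s.2.1 - s.1.1) * (t.1.2 - s.1.2) = (s.2.2 - s.1.2) * (t.1.1 - s.1.1)) ↔
      cr (tc s.2 - tc s.1) (tc t.1 - tc s.1) = 0 := by
    simp only [cr, tc, Prod.fst_sub, Prod.snd_sub]
    rw [sub_eq_zero]
    norm_cast
  have d0 : dt (tc s.2 - tc s.1) (tc s.2 - tc s.1) =
      (((s.2.1 - s.1.1) * (s.2.1 - s.1.1) + (s.2.2 - s.1.2) * (s.2.2 - s.1.2) : ℤ) : ℝ) := by
    simp only [dt, tc, Prod.fst_sub, Prod.snd_sub]; push_cast; ring
  have d1 : dt (tc s.2 - tc s.1) (tc t.1 - tc s.1) =
      (((s.2.1 - s.1.1) * (t.1.1 - s.1.1) + (s.2.2 - s.1.2) * (t.1.2 - s.1.2) : ℤ) : ℝ) := by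
    simp only [dt, tc, Prod.fst_sub, Prod.snd_sub]; push_cast; ring
  have d2 : dt (tc s.2 - tc s.1) (tc t.2 - tc s.1) =
      (((s.2.1 - s.1.1) * (t.2.1 - s.1.1) + (s.2.2 - s.1.2) * (t.2.2 - s.1.2) : ℤ) : ℝ) := by
    simp only [dt, tc, Prod.fst_sub, Prod.snd_sub]; push_cast; ring
  rw [d0, d1, d2, ← c1, ← c2]
  have z : (0 : ℝ) = ((0 : ℤ) : ℝ) := by norm_num
  rw [z]
  simp only [Int.cast_lt]
  constructor
  · rintro ⟨⟨⟨h1, h2⟩, h3⟩, h4⟩
    exact ⟨h1, h2, h3, h4⟩
  · rintro ⟨h1, h2, h3, h4⟩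
    exact ⟨⟨⟨h1, h2⟩, h3⟩, h4⟩

/-- the union of a list of integer segments -/
def PS (L : List (ZP × ZP)) : Set Pt := {x | ∃ s ∈ L, x ∈ segment ℝ (tc s.1) (tc s.2)}

def adL (L L' : List (ZP × ZP)) : Bool := L.any fun s => L'.any fun t => ovI s t

def nd (L : List (ZP × ZP)) : Bool := L.all fun s => decide (s.1 ≠ s.2)

theorem adL_iff {L L' : List (ZP × ZP)} (h : nd L = true) (h' : nd L' = true) :
    adL L L' = true ↔ (PS L ∩ PS L').Infinite := by
  unfold nd at h h'
  rw [List.all_eq_true] at h h'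
  simp only [decide_eq_true_eq] at h h'
  unfold adL
  rw [List.any_eq_true]
  constructor
  · rintro ⟨s, hs, h1⟩
    rw [List.any_eq_true] at h1
    obtain ⟨t, ht, h2⟩ := h1
    have h3 := (ovI_iff (h s hs) (h' t ht)).mp h2
    refine h3.mono ?_
    rintro x ⟨hx, hx'⟩
    exact ⟨⟨s, hs, hx⟩, ⟨t, ht, hx'⟩⟩
  · intro hinf
    by_contra hcon
    apply hinf
    have hfin : ∀ s ∈ L, ∀ t ∈ L',
        (segment ℝ (tc s.1) (tc s.2) ∩ segment ℝ (tc t.1) (tc t.2)).Finite := by
      intro s hs t ht
      by_contra h1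
      apply hcon
      refine ⟨s, hs, ?_⟩
      rw [List.any_eq_true]
      exact ⟨t, ht, (ovI_iff (h s hs) (h' t ht)).mpr h1⟩
    have hsub : PS L ∩ PS L' ⊆ ⋃ s ∈ {s | s ∈ L}, ⋃ t ∈ {t | t ∈ L'},
        segment ℝ (tc s.1) (tc s.2) ∩ segment ℝ (tc t.1) (tc t.2) := by
      rintro x ⟨⟨s, hs, hx⟩, ⟨t, ht, hx'⟩⟩
      simp only [Set.mem_iUnion]
      exact ⟨s, hs, t, ht, hx, hx'⟩
    refine Set.Finite.subset ?_ hsub
    apply Set.Finite.biUnion (List.finite_toSet L)
    intro s hs
    apply Set.Finite.biUnion (List.finite_toSet L')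
    intro t ht
    exact hfin s hs t ht

/-- encoded coordinates of polylines with two segments (directions `(1,0), (0,1), (3,-2), (1,-1)`),
six coordinates for each of the 96 polylines, 15 bits each, shifted by `16384` -/
def T1 : ℕ := 0xa01cd58a78636649c14dd9a70537669530eb623933e4a8e4cf92a3483ee08bf4fdda2fd3f768bd0fe222eb3f9a8bacfe6a2bb3ffa8a2d016a28b405a85d10a2205d44b6817512da02bc5197fe915f1ffa457c7f411741ffa45527fe9154a01b44ef80f1123203c448c83c109c21a44054869101521d43fc48810fcd22043f3489c0f7c22dc3cac8b70f2b230e3c168d00ee023403b809000e5024c037009300dc02541357d9708cfea5a634b49494d6da4a436b89290dae23f038208cf0e62233c39888bc4e87a2a63ab48a98ead21983cd08228fbb208a3eec8168fd3202a3fac80a8feb20183fd08018ffd20063ff480010001ffa400c7fe90031fd040607fe8ff89ffa3fe27ff8ff5a0023fca8008ff2a0083fb88038fe9a00e3fa680f8fc5a06e3e8681b8fa1a1883b388a88dfaa2a237ea8b50dd5230636be8c18dafa31836888ca8d94a32a36528eacd33e42c334ca1b4d9027d936409d14d90274536409930d9025533640954cd902527b64093f0d9024fc364093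c0d9024e436409390d9024c7364092a8d9024aa36409020d90236636408d98d90234836408ca8d90232a36408c00d90230036be8c00dafa30036fa8c00dcda30037368c00e1a2300399a8c00e66a30039f18c00e9223003a488c00ec823003bf88c00efe23003c4f8c00f29a3003ca68c00f7623003f0a8c00fc2a30040128c01046a3f33fa08d74fe822c73fa08b1cfe822643fa08804fe822013fa08756fe821aa3fa086a8fe821083fa08198fe820663fa08124fe8202c3fa080b0fe820203fa08050fe820143fa08044fe8200e3fa08038fe820003fa08000ff2a0003fca8000ff420003fd68000ff5a0003fe88000ffea0003ffa8001014600040a8800102a200042a0800112620004498800113be00045468001151a0004558800115aa000456a800119e20004786a1d8d2127983640a508d902672388c9e60d9026f236409200df0250036409698d90268431b49400d9024f836409098f4923003f708c00fa922fa3f7c8c00fdc230042c48ae0f4623003c408c00eec23803ac08c00f1023003d0c99b0cca24e0364093a0d90246837309380d90247436408c90d99233036408e70d90252830588cc0d90232436408de0e4423003a008c00e4d224c3b688c00e8023003a908910e41230036d08c00dab230c36ac8c00db42300379c8bb8fe522e83fa093f8fe8222e41148ba0fe822a63fa085a104221e03fa08888fe822283ec88780fe821743fa082e90ff2000457080011591ff44588800115c2000499c7fd11592000454080010fc207843d880011502000454c8390f8e20303fa08270fe820243fb880c0fe820283fa08030feb20103fa08060fe820cc3d6c8040fe8200c3fa08030ffa200040008000ffd1ff440188001000200041507fd0ffd20003fd08000ff120043fc48000ff420003fdcac40bd41fd045d0ac409042b1029e07f410182b101ea0b900d90230036408c013302b403fa08000fe820005620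

/-- encoded coordinates of polylines with three segments (directions `(1,0), (0,1), (1,1), (1,-1)`),
eight coordinates for each of the 96 polylines, 15 bits each, shifted by `16384` -/
def T2 : ℕ := 0x8c890502302c1408b8d05022a441408a91050224a414087c1050213c414084f1050212c4140847105020fc414083f105020f6414083c105020e44140839105020dc4140835105020c441408311050209a414081c1050201c414080710502014c14080350501ffe41407ff90501ff741407fc10501ffe41247ff90492000c11f800d046a00841108021044202440d88101028208640a08219028208c40a08249028209e40a0827902820b340a0832102820f240a083c9028210240a08449028213240a084c9028217d40a08721028225e40a08979028228040a08a8902822e640a08a5100022754000895900022184000886100021dc400086810002128400084a100021184000842100020e8400083a100020c4400082810002058400081610002050400081210002038400080e1000202c400080810002008400080210002005400080090001ffc40007ff10001fee40007f810001ffc3fc87ff0ff21ffdbfc57ffcff0a0023fbc8008fef20053fb68020fec200e3fa48038fe920163f948078fe1202e3f6480b8fd920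5b3f0a8220fac20e23dfc8388f7f20ea3dec83c8f7721023dbc8408f6f21053db68420f6c210e3da48438f69212d3d668530f4a218a3cac8d110822328c1d18c35066a2d6412c8b5904b22c7410e8ae103c229a40b48a6902d229540aa8a410282286408c8a190232277406e89a1014224a40148929005223e3ffc88c8ff9221a3fb48868fed21e13f4286a0fb421363dec84d8f7b212c3dd88488f71210e3d9c8438f6721073d8e8400f6021003db88400f6e21003dcc8400f7821003e088400f8221003e748400fb821003fb88400fee21003fcf8400ff9a100401484010052100403284010142100408c8401023210040968401028210040b4840102d210040d2840103c2100412c840104b210041638401066a100420885910922140c201847506ea0d6412c835904b20c7410e82e103c209a40b4826902d209540aa82410282086408c82190232077406e81a1014204a401481290052046400c8109001203a3ff480e8ffd20313fe280a0ff420163fac8058feb20143fa88048fe9200e3f9c8038fe720073f8e8000fe020003fb88000fee20003fbc8000ff020003fc88000ff220003fd48000ff820003ff88000ffe200040038001003a000402480010092000405a8001024200040fc800103f2000410680010442000412480010492000412a800104c2000413c800104f2000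417f8001070a00042488d91050232241408b8105023a842d089a105022a441408b8105022cc411888b1028225e40a08a4102822a440c88cf102822e640a08a41028227c407885e1050213c414084010502100411883e105020fc41408401050210042d0839102820f240a08401028210040788591028213240a08401028210040c88ba10002294400089010002254402887c100022184000890100021f43f688430f6a210e3da48440f68215c3e388810eee218a3cac8440f68210c3d98854100021284000840100021003f70834100020e840008401000210040288310f8e20e23dfc8400f7021003db08410f6e21023dbc8400f7021003e5083a105020e44140838105021e8435082a105020c44140838105020cc411881f1028208640a0824102820a440c882b1028209e40a08241028207c407880e1050201c41408001050200041387ff10501ffe41408001050200043507ff104a1ffe41248001048200040d880410402008411080010482000412881c10002058400081010002054402880c100020384000810100020343fe88030fea200e3fa48040fe8201c3fb88130fca202e3f648040fe8200c3f98804100020084000800100020003ff07fe10001ffc40008001000200040487fe0ff41ffc3fc88000ff020003fb08010fee20023fbc8000ff020003fd093c10501ff041408101028254040a09381000226040007f8100024e0360098011e0238042808400f60210047809401260228044808000fe020004980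

def co (T k : ℕ) : ℤ := ((T / 2 ^ (15 * k) % 32768 : ℕ) : ℤ) - 16384

/-- the points of the polylines -/
def p1 (n i : ℕ) : ZP := (co T1 (6 * n + 2 * i), co T1 (6 * n + 2 * i + 1))
def p2 (n i : ℕ) : ZP := (co T2 (8 * n + 2 * i), co T2 (8 * n + 2 * i + 1))

def s1 (n : ℕ) : List (ZP × ZP) := [(p1 n 0, p1 n 1), (p1 n 1, p1 n 2)]
def s2 (n : ℕ) : List (ZP × ZP) := [(p2 n 0, p2 n 1), (p2 n 1, p2 n 2), (p2 n 2, p2 n 3)]

def par (s : ZP × ZP) (d : ZP) : Bool :=
  decide ((s.2.1 - s.1.1) * d.2 = (s.2.2 - s.1.2) * d.1)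

def D1 : List ZP := [(1, 0), (0, 1), (3, -2), (1, -1)]
def D2 : List ZP := [(1, 0), (0, 1), (1, 1), (1, -1)]

theorem nd1 : ∀ n : Fin 96, nd (s1 n) = true := by decide +kernel
theorem nd2 : ∀ n : Fin 96, nd (s2 n) = true := by decide +kernel
theorem dir1 : ∀ n : Fin 96, ((s1 n).all fun s => D1.any (par s)) = true := by decide +kernel
theorem dir2 : ∀ n : Fin 96, ((s2 n).all fun s => D2.any (par s)) = true := by decide +kernel

theorem same_adj : ∀ n m : Fin 96, n < m → adL (s1 n) (s1 m) = adL (s2 n) (s2 m) := by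
  decide +kernel

end Pool.Agent.Bend
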